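import Mathlib

/-! Lexicographic subshifts `V α = {x | ∀ n, ᾱ ≤ σⁿ x ≤ α}`: words, states, followers. -/

set_option autoImplicit false

namespace Pool.Agent.H284.EM

variable {M : ℕ}

/-- infinite sequences over `{0, …, M}` -/
abbrev Sq (M : ℕ) := ℕ → Fin (M + 1)

/-- finite words over `{0, …, M}` -/
abbrev Wd (M : ℕ) := List (Fin (M + 1))

/-- strict lexicographic order -/
def Lt (x y : Sq M) : Prop := ∃ n, (∀ i < n, x i = y i) ∧ x n < y n

/-- lexicographic order -/
def Le (x y : Sq M) : Prop := x = y ∨ Lt x y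

/-- reflection -/
def rf (x : Sq M) : Sq M := fun n => (x n).rev

/-- shift by `n` -/
def dr (n : ℕ) (x : Sq M) : Sq M := fun i => x (n + i)

/-- the word `w` followed by the sequence `x` -/
def ap (w : Wd M) (x : Sq M) : Sq M :=
  fun n => if h : n < w.length then w[n] else x (n - w.length)

/-- the first `n` symbols -/
def tk (n : ℕ) (x : Sq M) : Wd M := (List.range n).map x

/-- reflection of words -/
def rw' (w : Wd M) : Wd M := w.map Fin.rev

theorem Lt.trans {x y z : Sq M} (h : Lt x y) (h' : Lt y z) : Lt x z := by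
  obtain ⟨n, h1, h2⟩ := h
  obtain ⟨m, h3, h4⟩ := h'
  rcases lt_trichotomy n m with h | h | h
  · exact ⟨n, fun i hi => (h1 i hi).trans (h3 i (hi.trans h)), (h3 n h) ▸ h2⟩
  · subst h
    exact ⟨n, fun i hi => (h1 i hi).trans (h3 i hi), h2.trans h4⟩
  · exact ⟨m, fun i hi => (h1 i (hi.trans h)).trans (h3 i hi), (h1 m h) ▸ h4⟩

theorem Lt.irrefl (x : Sq M) : ¬ Lt x x := by
  rintro ⟨n, _, h⟩
  exact lt_irrefl _ h

theorem Le.refl (x : Sq M) : Le x x := Or.inl rfl

theorem Lt.le {x y : Sq M} (h : Lt x y) : Le x y := Or.inr h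

theorem Le.trans {x y z : Sq M} (h : Le x y) (h' : Le y z) : Le x z := by
  rcases h with rfl | h
  · exact h'
  rcases h' with rfl | h'
  · exact h.le
  exact (h.trans h').le

theorem Lt.trans_le {x y z : Sq M} (h : Lt x y) (h' : Le y z) : Lt x z := by
  rcases h' with rfl | h'
  · exact h
  exact h.trans h'

theorem Le.trans_lt {x y z : Sq M} (h : Le x y) (h' : Lt y z) : Lt x z := by
  rcases h with rfl | h
  · exact h'
  exact h.trans h'

theorem trich (x y : Sq M) : x = y ∨ Lt x y ∨ Lt y x := by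
  by_cases h : x = y
  · exact Or.inl h
  right
  have : ∃ n, x n ≠ y n := by
    by_contra h'
    push Not at h'
    exact h (funext h')
  classical
  have h1 := Nat.find_spec this
  have h2 : ∀ i < Nat.find this, x i = y i := fun i hi => by
    have := Nat.find_min this hi
    simpa using this
  rcases lt_or_gt_of_ne h1 with h3 | h3
  · exact Or.inl ⟨_, h2, h3⟩
  · exact Or.inr ⟨_, fun i hi => (h2 i hi).symm, h3⟩

theorem not_le {x y : Sq M} : ¬ Le x y ↔ Lt y x := by
  constructor
  · intro h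
    rcases trich x y with h1 | h1 | h1
    · exact absurd (Or.inl h1) h
    · exact absurd h1.le h
    · exact h1
  · intro h h'
    exact Lt.irrefl _ (h.trans_le h')

theorem Le.antisymm {x y : Sq M} (h : Le x y) (h' : Le y x) : x = y := by
  rcases h with h | h
  · exact h
  · exact absurd h' (not_le.2 h)

@[simp] theorem ap_nil (x : Sq M) : ap [] x = x := by
  funext n; simp [ap]

theorem ap_lt {w : Wd M} {x : Sq M} {n : ℕ} (h : n < w.length) : ap w x n = w[n] := by
  simp [ap, h]

theorem ap_ge {w : Wd M} {x : Sq M} {n : ℕ} (h : w.length ≤ n) : ap w x n = x (n - w.length) := by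
  simp [ap, not_lt.2 h]

theorem ap_add {w : Wd M} {x : Sq M} (n : ℕ) : ap w x (w.length + n) = x n := by
  rw [ap_ge (by omega)]; congr 1; omega

theorem ap_ap (u v : Wd M) (x : Sq M) : ap (u ++ v) x = ap u (ap v x) := by
  funext n
  by_cases h : n < u.length
  · rw [ap_lt h, ap_lt (by simp; omega), List.getElem_append_left h]
  · rw [ap_ge (not_lt.1 h)]
    by_cases h' : n < (u ++ v).length
    · rw [ap_lt h', List.getElem_append_right (not_lt.1 h), ap_lt]
    · rw [ap_ge (not_lt.1 h'), ap_ge (by simp at h'; omega)]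
      congr 1
      simp; omega

theorem dr_ap (w : Wd M) (x : Sq M) : dr w.length (ap w x) = x := by
  funext n; exact ap_add n

theorem dr_ap' (w : Wd M) (x : Sq M) (n : ℕ) (h : n ≤ w.length) :
    dr n (ap w x) = ap (w.drop n) x := by
  conv_lhs => rw [← List.take_append_drop n w, ap_ap]
  have : n = (w.take n).length := by simp [h]
  conv_lhs => rw [this]
  rw [← this]
  conv_lhs => arg 1; rw [this]
  exact dr_ap _ _

theorem dr_dr (m n : ℕ) (x : Sq M) : dr m (dr n x) = dr (n + m) x := by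
  funext i; simp [dr, Nat.add_assoc]

@[simp] theorem dr_zero (x : Sq M) : dr 0 x = x := by
  funext i; simp [dr]

@[simp] theorem length_tk (n : ℕ) (x : Sq M) : (tk n x).length = n := by simp [tk]

@[simp] theorem getElem_tk (n : ℕ) (x : Sq M) (i : ℕ) (h : i < (tk n x).length) :
    (tk n x)[i] = x i := by simp [tk]

theorem ap_tk_dr (n : ℕ) (x : Sq M) : ap (tk n x) (dr n x) = x := by
  funext i
  by_cases h : i < n
  · rw [ap_lt (by simpa using h)]; simp
  · rw [ap_ge (by simpa using h)]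
    simp only [length_tk, dr]
    congr 1; omega

theorem tk_ap (w : Wd M) (x : Sq M) : tk w.length (ap w x) = w := by
  apply List.ext_getElem
  · simp
  · intro i h1 h2
    simp [ap, h2]

theorem tk_succ (n : ℕ) (x : Sq M) : tk (n + 1) x = tk n x ++ [x n] := by
  simp [tk, List.range_succ]

theorem tk_add (m n : ℕ) (x : Sq M) : tk (m + n) x = tk m x ++ tk n (dr m x) := by
  induction n with
  | zero => simp [tk]
  | succ n ih => rw [← Nat.add_assoc, tk_succ, ih, tk_succ, List.append_assoc]; rfl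

@[simp] theorem tk_zero (x : Sq M) : tk 0 x = [] := rfl

/-! order and words -/

theorem ap_lt_ap (w : Wd M) {x y : Sq M} : Lt (ap w x) (ap w y) ↔ Lt x y := by
  constructor
  · rintro ⟨n, h1, h2⟩
    have hn : w.length ≤ n := by
      by_contra h
      rw [ap_lt (not_le.1 h), ap_lt (not_le.1 h)] at h2
      exact lt_irrefl _ h2
    refine ⟨n - w.length, fun i hi => ?_, ?_⟩
    · have := h1 (w.length + i) (by omega)
      rwa [ap_add, ap_add] at this
    · rwa [ap_ge hn, ap_ge hn] at h2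
  · rintro ⟨n, h1, h2⟩
    refine ⟨w.length + n, fun i hi => ?_, ?_⟩
    · by_cases h : i < w.length
      · rw [ap_lt h, ap_lt h]
      · rw [ap_ge (not_lt.1 h), ap_ge (not_lt.1 h)]
        exact h1 _ (by omega)
    · rwa [ap_add, ap_add]
where
  not_le {a b : ℕ} : ¬ a ≤ b ↔ b < a := Nat.not_le

theorem ap_inj (w : Wd M) {x y : Sq M} (h : ap w x = ap w y) : x = y := by
  rw [← dr_ap w x, ← dr_ap w y, h]

theorem ap_le_ap (w : Wd M) {x y : Sq M} : Le (ap w x) (ap w y) ↔ Le x y := by
  constructor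
  · rintro (h | h)
    · exact Or.inl (ap_inj w h)
    · exact Or.inr ((ap_lt_ap w).1 h)
  · rintro (h | h)
    · exact Or.inl (by rw [h])
    · exact Or.inr ((ap_lt_ap w).2 h)

/-- `u` is a prefix of the sequence `x` -/
def Pre (u : Wd M) (x : Sq M) : Prop := ∃ y, x = ap u y

theorem pre_iff {u : Wd M} {x : Sq M} : Pre u x ↔ tk u.length x = u := by
  constructor
  · rintro ⟨y, rfl⟩
    exact tk_ap u y
  · intro h
    exact ⟨dr u.length x, by conv_lhs => rw [← ap_tk_dr u.length x, h]⟩

theorem pre_tk (n : ℕ) (x : Sq M) : Pre (tk n x) x := ⟨dr n x, (ap_tk_dr n x).symm⟩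

theorem Pre.left {u v : Wd M} {x : Sq M} (h : Pre (u ++ v) x) : Pre u x := by
  obtain ⟨y, rfl⟩ := h
  exact ⟨ap v y, ap_ap _ _ _⟩

theorem Pre.eq_ap {u : Wd M} {x : Sq M} (h : Pre u x) : x = ap u (dr u.length x) := by
  obtain ⟨y, rfl⟩ := h
  rw [dr_ap]

theorem pre_append {u v : Wd M} {x : Sq M} : Pre (u ++ v) x ↔ Pre u x ∧ Pre v (dr u.length x) := by
  constructor
  · rintro ⟨y, rfl⟩
    rw [ap_ap, dr_ap]
    exact ⟨⟨_, rfl⟩, ⟨_, rfl⟩⟩
  · rintro ⟨⟨y, rfl⟩, h⟩
    rw [dr_ap] at h
    obtain ⟨z, rfl⟩ := h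
    exact ⟨z, (ap_ap _ _ _).symm⟩

/-- strict comparison of a word with the beginning of a sequence -/
theorem lt_of_not_pre {u : Wd M} {x y z : Sq M} (hu : ¬ Pre u z) (h : Le (ap u y) z) :
    Lt (ap u x) z := by
  rcases h with rfl | ⟨n, h1, h2⟩
  · exact absurd ⟨y, rfl⟩ hu
  have hn : n < u.length := by
    by_contra hn
    apply hu
    rw [pre_iff]
    apply List.ext_getElem (by simp)
    intro i h3 h4
    rw [getElem_tk, ← h1 i (by omega), ap_lt h4]
  refine ⟨n, fun i hi => ?_, ?_⟩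
  · rw [← h1 i hi, ap_lt (hi.trans hn), ap_lt (hi.trans hn)]
  · rw [ap_lt hn] at h2 ⊢
    exact h2

theorem gt_of_not_pre {u : Wd M} {x y z : Sq M} (hu : ¬ Pre u z) (h : Le z (ap u y)) :
    Lt z (ap u x) := by
  rcases h with rfl | ⟨n, h1, h2⟩
  · exact absurd ⟨y, rfl⟩ hu
  have hn : n < u.length := by
    by_contra hn
    apply hu
    rw [pre_iff]
    apply List.ext_getElem (by simp)
    intro i h3 h4
    rw [getElem_tk, h1 i (by omega), ap_lt h4]
  refine ⟨n, fun i hi => ?_, ?_⟩
  · rw [h1 i hi, ap_lt (hi.trans hn), ap_lt (hi.trans hn)]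
  · rw [ap_lt hn] at h2 ⊢
    exact h2

/-- the word `e` is lexicographically smaller than `d` at some position of both -/
def WLt (e d : Wd M) : Prop :=
  ∃ n, ∃ (h : n < e.length) (h' : n < d.length), (∀ i (hi : i < n), e[i] = d[i]) ∧ e[n] < d[n]

theorem WLt.lt {e d : Wd M} (h : WLt e d) (x y : Sq M) : Lt (ap e x) (ap d y) := by
  obtain ⟨n, h1, h2, h3, h4⟩ := h
  refine ⟨n, fun i hi => ?_, ?_⟩
  · rw [ap_lt (hi.trans h1), ap_lt (hi.trans h2)]
    exact h3 i hi
  · rwa [ap_lt h1, ap_lt h2]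

theorem wlt_or {e d : Wd M} (h : ¬ e <+: d) (h' : ¬ d <+: e) : WLt e d ∨ WLt d e := by
  have : ∃ n, ∃ (h : n < e.length) (h' : n < d.length), e[n] ≠ d[n] := by
    by_contra hc
    push Not at hc
    rcases le_total e.length d.length with hl | hl
    · apply h
      rw [List.prefix_iff_eq_take]
      apply List.ext_getElem (by simp [hl])
      intro i h1 h2
      simp only [List.getElem_take]
      exact hc i h1 (by omega)
    · apply h'
      rw [List.prefix_iff_eq_take]
      apply List.ext_getElem (by simp [hl])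
      intro i h1 h2
      simp only [List.getElem_take]
      exact (hc i (by omega) h1).symm
  classical
  obtain ⟨h1, h2, h3⟩ := Nat.find_spec this
  have h4 : ∀ i (hi : i < Nat.find this), e[i] = d[i] := fun i hi => by
    have := Nat.find_min this hi
    push Not at this
    exact this (hi.trans h1) (hi.trans h2)
  rcases lt_or_gt_of_ne h3 with h5 | h5
  · exact Or.inl ⟨_, h1, h2, h4, h5⟩
  · exact Or.inr ⟨_, h2, h1, fun i hi => (h4 i hi).symm, h5⟩

theorem WLt.append {e d : Wd M} (h : WLt e d) (e' d' : Wd M) : WLt (e ++ e') (d ++ d') := by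
  obtain ⟨n, h1, h2, h3, h4⟩ := h
  refine ⟨n, by simp; omega, by simp; omega, fun i hi => ?_, ?_⟩
  · rw [List.getElem_append_left (hi.trans h1), List.getElem_append_left (hi.trans h2)]
    exact h3 i hi
  · rwa [List.getElem_append_left h1, List.getElem_append_left h2]

theorem WLt.append_left {e d : Wd M} (h : WLt e d) (u : Wd M) : WLt (u ++ e) (u ++ d) := by
  obtain ⟨n, h1, h2, h3, h4⟩ := h
  refine ⟨u.length + n, by simp; omega, by simp; omega, fun i hi => ?_, ?_⟩
  · by_cases hu : i < u.length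
    · rw [List.getElem_append_left hu, List.getElem_append_left hu]
    · rw [List.getElem_append_right (by omega), List.getElem_append_right (by omega)]
      exact h3 _ (by omega)
  · rw [List.getElem_append_right (by omega), List.getElem_append_right (by omega)]
    simpa using h4

/-! reflection -/

@[simp] theorem rf_rf (x : Sq M) : rf (rf x) = x := by funext n; simp [rf]

theorem rf_lt {x y : Sq M} : Lt (rf x) (rf y) ↔ Lt y x := by
  constructor
  · rintro ⟨n, h1, h2⟩
    exact ⟨n, fun i hi => (Fin.rev_injective (h1 i hi)).symm, Fin.rev_lt_rev.1 h2⟩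
  · rintro ⟨n, h1, h2⟩
    exact ⟨n, fun i hi => by simp [rf, h1 i hi], Fin.rev_lt_rev.2 h2⟩

theorem rf_le {x y : Sq M} : Le (rf x) (rf y) ↔ Le y x := by
  constructor
  · rintro (h | h)
    · left; rw [← rf_rf x, ← rf_rf y, h]
    · right; exact rf_lt.1 h
  · rintro (h | h)
    · left; rw [h]
    · right; exact rf_lt.2 h

theorem le_rf {x y : Sq M} : Le x (rf y) ↔ Le y (rf x) := by
  conv_lhs => rw [← rf_rf x]
  exact rf_le

theorem rf_dr (n : ℕ) (x : Sq M) : rf (dr n x) = dr n (rf x) := rfl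

@[simp] theorem length_rw' (w : Wd M) : (rw' w).length = w.length := by simp [rw']

theorem rf_ap (w : Wd M) (x : Sq M) : rf (ap w x) = ap (rw' w) (rf x) := by
  funext n
  by_cases h : n < w.length
  · rw [ap_lt (by simpa using h)]
    simp [rf, ap_lt h, rw']
  · rw [ap_ge (by simpa using h)]
    simp [rf, ap_ge (not_lt.1 h)]

@[simp] theorem rw'_rw' (w : Wd M) : rw' (rw' w) = w := by
  simp [rw', Function.comp_def]

theorem rw'_append (u v : Wd M) : rw' (u ++ v) = rw' u ++ rw' v := by simp [rw']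

@[simp] theorem rw'_nil : rw' ([] : Wd M) = [] := rfl

theorem rw'_tk (n : ℕ) (x : Sq M) : rw' (tk n x) = tk n (rf x) := by
  simp [rw', tk, rf, Function.comp_def]

/-! the shift `V α` -/

/-- the shift -/
def V (α : Sq M) : Set (Sq M) := {x | ∀ n, Le (rf α) (dr n x) ∧ Le (dr n x) α}

theorem V_dr {α x : Sq M} (h : x ∈ V α) (n : ℕ) : dr n x ∈ V α := by
  intro m
  rw [dr_dr]
  exact h _

theorem V_of_ap {α x : Sq M} {w : Wd M} (h : ap w x ∈ V α) : x ∈ V α := by
  have := V_dr h w.length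
  rwa [dr_ap] at this

theorem V_rf {α x : Sq M} (h : x ∈ V α) : rf x ∈ V α := by
  intro n
  have := h n
  rw [← rf_dr]
  refine ⟨rf_le.2 this.2, ?_⟩
  have h2 := rf_le.2 this.1
  rwa [rf_rf] at h2

/-- words of the shift, as beginnings of points -/
def La (α : Sq M) (w : Wd M) : Prop := ∃ x, ap w x ∈ V α

theorem La.left {α : Sq M} {u v : Wd M} (h : La α (u ++ v)) : La α u := by
  obtain ⟨x, hx⟩ := h
  exact ⟨ap v x, by rwa [← ap_ap]⟩

theorem La.right {α : Sq M} {u v : Wd M} (h : La α (u ++ v)) : La α v := by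
  obtain ⟨x, hx⟩ := h
  rw [ap_ap] at hx
  exact ⟨x, V_of_ap hx⟩

theorem La.suffix {α : Sq M} {u w : Wd M} (h : La α w) (hu : u <:+ w) : La α u := by
  obtain ⟨t, rfl⟩ := hu
  exact h.right

theorem La.prefx {α : Sq M} {u w : Wd M} (h : La α w) (hu : u <+: w) : La α u := by
  obtain ⟨t, rfl⟩ := hu
  exact h.left

theorem La.infx {α : Sq M} {u w : Wd M} (h : La α w) (hu : u <:+: w) : La α u := by
  obtain ⟨s, t, rfl⟩ := hu
  exact h.left.right

theorem La.rw {α : Sq M} {w : Wd M} (h : La α w) : La α (rw' w) := by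
  obtain ⟨x, hx⟩ := h
  exact ⟨rf x, by rw [← rf_ap]; exact V_rf hx⟩

theorem la_tk {α x : Sq M} (hx : x ∈ V α) (n : ℕ) : La α (tk n x) :=
  ⟨dr n x, by rwa [ap_tk_dr]⟩

/-! longest suffixes -/

theorem exists_lsuf (R : Wd M → Prop) (hR : R []) (w : Wd M) :
    ∃ u, u <:+ w ∧ R u ∧ ∀ t, t <:+ w → R t → t <:+ u := by
  induction w with
  | nil => exact ⟨[], List.suffix_refl _, hR, fun t ht _ => ht⟩
  | cons a w ih =>
    by_cases h : R (a :: w)
    · exact ⟨a :: w, List.suffix_refl _, h, fun t ht _ => ht⟩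
    · obtain ⟨u, h1, h2, h3⟩ := ih
      refine ⟨u, h1.trans (List.suffix_cons a w), h2, fun t ht hR' => ?_⟩
      rcases List.suffix_cons_iff.1 ht with rfl | ht
      · exact absurd hR' h
      · exact h3 t ht hR'

/-- the longest suffix with the property `R` -/
noncomputable def lsuf (R : Wd M → Prop) (w : Wd M) : Wd M := by
  classical exact if h : R [] then Classical.choose (exists_lsuf R h w) else []

theorem lsuf_suffix (R : Wd M → Prop) (w : Wd M) : lsuf R w <:+ w := by
  classical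
  unfold lsuf
  split_ifs with h
  · exact (Classical.choose_spec (exists_lsuf R h w)).1
  · exact List.nil_suffix

theorem lsuf_mem {R : Wd M → Prop} (hR : R []) (w : Wd M) : R (lsuf R w) := by
  classical
  unfold lsuf
  rw [dif_pos hR]
  exact (Classical.choose_spec (exists_lsuf R hR w)).2.1

theorem suffix_lsuf {R : Wd M → Prop} (hR : R []) {w t : Wd M} (ht : t <:+ w) (h : R t) :
    t <:+ lsuf R w := by
  classical
  unfold lsuf
  rw [dif_pos hR]
  exact (Classical.choose_spec (exists_lsuf R hR w)).2.2 t ht h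

theorem suffix_antisymm {u v : Wd M} (h : u <:+ v) (h' : v <:+ u) : u = v :=
  h.eq_of_length_le h'.length_le

theorem lsuf_eq {R : Wd M → Prop} (hR : R []) {w u : Wd M} (h1 : u <:+ w) (h2 : R u)
    (h3 : ∀ t, t <:+ w → R t → t <:+ u) : lsuf R w = u :=
  suffix_antisymm (h3 _ (lsuf_suffix R w) (lsuf_mem hR w)) (suffix_lsuf hR h1 h2)

theorem suffix_append_cases {t w v : Wd M} (h : t <:+ w ++ v) :
    t <:+ v ∨ ∃ t', t = t' ++ v ∧ t' <:+ w := by
  obtain ⟨s, hs⟩ := h
  rcases List.append_eq_append_iff.1 hs with ⟨a, h1, h2⟩ | ⟨a, h1, h2⟩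
  · right
    exact ⟨a, h2, ⟨s, h1.symm⟩⟩
  · left
    exact ⟨a, h2.symm⟩

theorem lsuf_append {R : Wd M → Prop} (hR : R []) (hpc : ∀ u v, R (u ++ v) → R u)
    (w v : Wd M) : lsuf R (w ++ v) = lsuf R (lsuf R w ++ v) := by
  symm
  apply lsuf_eq hR
  · have h1 := lsuf_suffix R (w ++ v)
    rcases suffix_append_cases h1 with h | ⟨t', h, h'⟩
    · exact h.trans (List.suffix_append _ _)
    · rw [h]
      have h2 : R t' := hpc t' v (h ▸ lsuf_mem hR (w ++ v))
      obtain ⟨s, hs⟩ := suffix_lsuf hR h' h2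
      exact ⟨s, by rw [← List.append_assoc, hs]⟩
  · exact lsuf_mem hR _
  · intro t ht hRt
    apply suffix_lsuf hR _ hRt
    refine ht.trans ?_
    obtain ⟨s, hs⟩ := lsuf_suffix R w
    exact ⟨s, by rw [← List.append_assoc, hs]⟩

/-- prefixes of `α` -/
def PP (α : Sq M) (w : Wd M) : Prop := Pre w α

/-- prefixes of the reflection of `α` -/
def QQ (α : Sq M) (w : Wd M) : Prop := Pre w (rf α)

/-- prefixes of `α` or of its reflection -/
def PQ (α : Sq M) (w : Wd M) : Prop := PP α w ∨ QQ α w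

theorem pre_nil (x : Sq M) : Pre [] x := ⟨x, by simp⟩

theorem pq_nil (α : Sq M) : PQ α [] := Or.inl (pre_nil _)

theorem pq_left {α : Sq M} (u v : Wd M) (h : PQ α (u ++ v)) : PQ α u :=
  h.imp Pre.left Pre.left

theorem pq_rw {α : Sq M} {w : Wd M} (h : PQ α w) : PQ α (rw' w) := by
  rcases h with ⟨y, h⟩ | ⟨y, h⟩
  · right; exact ⟨rf y, by rw [h, rf_ap]⟩
  · left; exact ⟨rf y, by rw [← rf_rf α, h, rf_ap]⟩

/-- the state after a word -/
noncomputable def st (α : Sq M) (w : Wd M) : Wd M := lsuf (PQ α) w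

theorem st_append (α : Sq M) (w v : Wd M) : st α (w ++ v) = st α (st α w ++ v) :=
  lsuf_append (pq_nil α) pq_left w v

theorem st_mem (α : Sq M) (w : Wd M) : PQ α (st α w) := lsuf_mem (pq_nil α) w

theorem st_suffix (α : Sq M) (w : Wd M) : st α w <:+ w := lsuf_suffix _ w

theorem suffix_st {α : Sq M} {w t : Wd M} (ht : t <:+ w) (h : PQ α t) : t <:+ st α w :=
  suffix_lsuf (pq_nil α) ht h

theorem st_self {α : Sq M} {w : Wd M} (h : PQ α w) : st α w = w :=
  suffix_antisymm (st_suffix α w) (suffix_st (List.suffix_refl _) h)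

theorem st_st (α : Sq M) (w : Wd M) : st α (st α w) = st α w := st_self (st_mem α w)

theorem suffix_rw' {u w : Wd M} (h : u <:+ w) : rw' u <:+ rw' w := by
  obtain ⟨t, rfl⟩ := h
  exact ⟨rw' t, (rw'_append _ _).symm⟩

theorem st_rw (α : Sq M) (w : Wd M) : st α (rw' w) = rw' (st α w) := by
  apply lsuf_eq (pq_nil α)
  · exact suffix_rw' (st_suffix α w)
  · exact pq_rw (st_mem α w)
  · intro t ht h
    have h1 := suffix_st (α := α) (w := w) (t := rw' t) (by simpa using suffix_rw' ht) (pq_rw h)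
    simpa using suffix_rw' h1

/-- **followers** -/
theorem ap_mem_iff {α : Sq M} {w : Wd M} (hw : La α w) {x : Sq M} :
    ap w x ∈ V α ↔ x ∈ V α ∧ ∀ t, t <:+ w →
      (PP α t → Le (ap t x) α) ∧ (QQ α t → Le (rf α) (ap t x)) := by
  constructor
  · intro h
    refine ⟨V_of_ap h, ?_⟩
    rintro t ⟨s, rfl⟩
    rw [ap_ap] at h
    have := V_of_ap h 0
    rw [dr_zero] at this
    exact ⟨fun _ => this.2, fun _ => this.1⟩
  · rintro ⟨hx, h⟩ n
    by_cases hn : n ≤ w.length
    · rw [dr_ap' w x n hn]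
      obtain ⟨y, hy⟩ := hw
      have h1 := hy n
      rw [dr_ap' w y n hn] at h1
      have h2 := h (w.drop n) (List.drop_suffix _ _)
      constructor
      · by_cases hq : QQ α (w.drop n)
        · exact h2.2 hq
        · exact (gt_of_not_pre hq h1.1).le
      · by_cases hp : PP α (w.drop n)
        · exact h2.1 hp
        · exact (lt_of_not_pre hp h1.2).le
    · have : dr n (ap w x) = dr (n - w.length) x := by
        conv_rhs => rw [← dr_ap w x, dr_dr]
        congr 1; omega
      rw [this]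
      exact hx _

theorem ap_mem_st {α : Sq M} {w : Wd M} (hw : La α w) {x : Sq M} :
    ap w x ∈ V α ↔ ap (st α w) x ∈ V α := by
  rw [ap_mem_iff hw, ap_mem_iff (hw.suffix (st_suffix α w))]
  constructor
  · rintro ⟨h1, h2⟩
    exact ⟨h1, fun t ht => h2 t (ht.trans (st_suffix α w))⟩
  · rintro ⟨h1, h2⟩
    refine ⟨h1, fun t ht => ⟨fun hp => ?_, fun hq => ?_⟩⟩
    · exact (h2 t (suffix_st ht (Or.inl hp))).1 hp
    · exact (h2 t (suffix_st ht (Or.inr hq))).2 hq

theorem la_append_iff {α : Sq M} {w v : Wd M} (hw : La α w) :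
    La α (w ++ v) ↔ La α (st α w ++ v) := by
  constructor
  · rintro ⟨x, hx⟩
    rw [ap_ap] at hx
    exact ⟨x, by rw [ap_ap]; exact (ap_mem_st hw).1 hx⟩
  · rintro ⟨x, hx⟩
    rw [ap_ap] at hx
    exact ⟨x, by rw [ap_ap]; exact (ap_mem_st hw).2 hx⟩

end Pool.Agent.H284.EM
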