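import Pool.Agent.H284.EM.Loops

/-! Branching states: two loops, or a periodic orbit. -/

set_option autoImplicit false

namespace Pool.Agent.H284.EM

variable {M : ℕ}

theorem le_head {x z : Sq M} (h : Le x z) : x 0 ≤ z 0 := by
  rcases h with rfl | ⟨n, h1, h2⟩
  · exact le_rfl
  · rcases Nat.eq_zero_or_pos n with rfl | hn
    · exact h2.le
    · exact (h1 0 hn).le

/-- squeezing -/
theorem squeeze {z x w : Sq M} {n : ℕ} (h1 : Le z x) (h2 : Le x w) (h : ∀ i < n, z i = w i) :
    (∀ i < n, x i = z i) ∧ z n ≤ x n ∧ x n ≤ w n := by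
  have key : ∀ i < n, x i = z i := by
    intro i
    induction i using Nat.strong_induction_on with
    | _ i ih =>
      intro hi
      have h3 : z i ≤ x i := by
        rcases h1 with rfl | ⟨m, h4, h5⟩
        · exact le_rfl
        rcases lt_trichotomy i m with h6 | rfl | h6
        · exact (h4 i h6).le
        · exact h5.le
        · exact absurd (ih m h6 (h6.trans hi)) h5.ne'
      have h3' : x i ≤ w i := by
        rcases h2 with rfl | ⟨m, h4, h5⟩
        · exact le_rfl
        rcases lt_trichotomy i m with h6 | rfl | h6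
        · exact (h4 i h6).le
        · exact h5.le
        · exact absurd ((ih m h6 (h6.trans hi)).trans (h m (h6.trans hi))) h5.ne
      exact le_antisymm (h3'.trans (h i hi).ge) h3
  refine ⟨key, ?_, ?_⟩
  · rcases h1 with rfl | ⟨m, h4, h5⟩
    · exact le_rfl
    rcases lt_trichotomy n m with h6 | rfl | h6
    · exact (h4 n h6).le
    · exact h5.le
    · exact absurd (key m h6) h5.ne'
  · rcases h2 with rfl | ⟨m, h4, h5⟩
    · exact le_rfl
    rcases lt_trichotomy n m with h6 | rfl | h6
    · exact (h4 n h6).le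
    · exact h5.le
    · exact absurd ((key m h6).trans (h m h6)) h5.ne

/-- length of the longest suffix of `α₀ … α_{k-1}` which is a prefix of the reflection -/
noncomputable def lq (α : Sq M) (k : ℕ) : ℕ := (lsuf (QQ α) (tk k α)).length

theorem qq_nil (α : Sq M) : QQ α [] := pre_nil _

theorem lq_suffix (α : Sq M) (k : ℕ) : tk (lq α k) (rf α) <:+ tk k α := by
  have := lsuf_suffix (QQ α) (tk k α)
  have h2 := qq_tk (lsuf_mem (qq_nil α) (tk k α))
  rw [h2] at this
  exact this

theorem lq_max {α : Sq M} {k : ℕ} {t : Wd M} (ht : t <:+ tk k α) (h : QQ α t) :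
    t <:+ tk (lq α k) (rf α) := by
  have := suffix_lsuf (qq_nil α) ht h
  have h2 := qq_tk (lsuf_mem (qq_nil α) (tk k α))
  rw [h2] at this
  exact this

theorem lq_le (α : Sq M) (k : ℕ) : lq α k ≤ k := by
  simpa using (lq_suffix α k).length_le

theorem lq_lt {α : Sq M} (hnd : (α 0).rev ≠ α 0) {k : ℕ} (hk : 0 < k) : lq α k < k := by
  rcases (lq_le α k).lt_or_eq with h | h
  · exact h
  exfalso
  have h1 := lq_suffix α k
  rw [h] at h1
  have h2 := h1.eq_of_length (by simp)
  apply not_pp_qq hnd (t := tk k α) (by simpa using hk) (pre_tk _ _)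
  rw [← h2]
  exact pre_tk _ _

/-- entries of the reflected run -/
theorem lq_entries (α : Sq M) (k i : ℕ) (hi : i < lq α k) :
    α (k - lq α k + i) = rf α i := by
  obtain ⟨s, hs⟩ := lq_suffix α k
  have hle := lq_le α k
  have hsl : s.length = k - lq α k := by
    have := congrArg List.length hs
    simp at this
    omega
  have h1 : (s ++ tk (lq α k) (rf α))[k - lq α k + i]'(by simp; omega) = rf α i := by
    rw [List.getElem_append_right (by omega)]
    simp [hsl]
  rw [← h1]
  simp only [hs]
  simp

/-- branching -/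
def BR (α : Sq M) (k : ℕ) : Prop := rf α (lq α k) < α k

theorem symbol_bounds {α : Sq M} {k : ℕ} {a : Fin (M + 1)} (h : La α (tk k α ++ [a])) :
    rf α (lq α k) ≤ a ∧ a ≤ α k := by
  obtain ⟨x, hx⟩ := h
  rw [ap_ap] at hx
  constructor
  · obtain ⟨s, hs⟩ := lq_suffix α k
    rw [← hs, ap_ap] at hx
    have h1 := V_of_ap hx 0
    rw [dr_zero] at h1
    have h2 := h1.1
    conv_lhs at h2 => rw [← ap_tk_dr (lq α k) (rf α)]
    have h3 := le_head ((ap_le_ap _).1 h2)
    simpa [dr, ap] using h3
  · have h1 := hx 0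
    rw [dr_zero] at h1
    have h2 := h1.2
    conv_rhs at h2 => rw [← ap_tk_dr k α]
    have h3 := le_head ((ap_le_ap _).1 h2)
    simpa [dr, ap] using h3

theorem pp_suffix_le {α : Sq M} (hα : α ∈ V α) {k : ℕ} {t : Wd M} (ht : t <:+ tk k α)
    (hp : PP α t) : α k ≤ α t.length := by
  obtain ⟨s, hs⟩ := ht
  have h1 : ap (tk k α) (dr k α) = α := ap_tk_dr k α
  rw [← hs, ap_ap] at h1
  have h2 : ap t (dr k α) ∈ V α := V_of_ap (w := s) (by rw [h1]; exact hα)
  have h3 := h2 0
  rw [dr_zero] at h3
  have h4 := h3.2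
  conv_rhs at h4 => rw [← ap_tk_dr t.length α, ← pp_tk hp]
  have h5 := le_head ((ap_le_ap _).1 h4)
  simpa [dr] using h5

/-- switching to the reflected run is legal -/
theorem switch_mem {α : Sq M} (hα : α ∈ V α) {k : ℕ} (hk : BR α k) :
    ap (tk k α) (dr (lq α k) (rf α)) ∈ V α := by
  rw [ap_mem_iff (la_tk hα k)]
  refine ⟨V_dr (V_rf hα) _, fun t ht => ⟨fun hp => ?_, fun hq => ?_⟩⟩
  · have h1 := pp_suffix_le hα ht hp
    conv_rhs => rw [← ap_tk_dr t.length α, ← pp_tk hp]
    refine (ap_le_ap _).2 (Lt.le ⟨0, by simp, ?_⟩)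
    simp only [dr, Nat.add_zero]
    exact lt_of_lt_of_le hk h1
  · obtain ⟨s, hs⟩ := lq_max ht hq
    have h1 : ap (tk (lq α k) (rf α)) (dr (lq α k) (rf α)) = rf α := ap_tk_dr _ _
    rw [← hs, ap_ap] at h1
    have h2 : ap t (dr (lq α k) (rf α)) ∈ V α :=
      V_of_ap (w := s) (by rw [h1]; exact V_rf hα)
    have h3 := h2 0
    rw [dr_zero] at h3
    exact h3.1

theorem switch_st {α : Sq M} (hα : α ∈ V α) {k : ℕ} (hk : BR α k) :
    st α (tk k α ++ [rf α (lq α k)]) = tk (lq α k + 1) (rf α) := by
  apply lsuf_eq (pq_nil α)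
  · rw [tk_succ]
    obtain ⟨s, hs⟩ := lq_suffix α k
    exact ⟨s, by rw [← List.append_assoc, hs]⟩
  · exact Or.inr (pre_tk _ _)
  · intro t ht hp
    rcases suffix_append_cases ht with h | ⟨t', rfl, h⟩
    · rw [tk_succ]
      exact h.trans (List.suffix_append _ _)
    · rcases hp with hp | hq
      · exfalso
        have h1 := pp_suffix_le hα h hp.left
        obtain ⟨z, hz⟩ := hp
        have h2 := congrFun hz t'.length
        rw [ap_ap, ap_ge le_rfl] at h2
        simp [ap] at h2
        exact absurd (lt_of_lt_of_le hk h1) (by rw [h2]; exact lt_irrefl _)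
      · rw [tk_succ]
        obtain ⟨s, hs⟩ := lq_max h hq.left
        exact ⟨s, by rw [← List.append_assoc, hs]⟩

/-- a half loop -/
def Half (α : Sq M) (u h : Wd M) : Prop := h ≠ [] ∧ La α (u ++ h) ∧ st α (u ++ h) = rw' u

theorem Half.loop {α : Sq M} {u h : Wd M} (hh : Half α u h) : Loop α u (h ++ rw' h) := by
  refine ⟨by simp [hh.1], ?_, ?_⟩
  · rw [← List.append_assoc, la_append_iff hh.2.1, hh.2.2, ← rw'_append]
    exact hh.2.1.rw
  · rw [← List.append_assoc, st_append, hh.2.2, ← rw'_append, st_rw, hh.2.2, rw'_rw']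

theorem la_of_pre {α x : Sq M} {w : Wd M} (hx : x ∈ V α) (h : Pre w x) : La α w := by
  obtain ⟨y, rfl⟩ := h
  exact ⟨y, hx⟩

theorem tk_one (x : Sq M) : tk 1 x = [x 0] := rfl

/-- from `α₀ … α_{k-1}` to its reflection -/
theorem switch {α : Sq M} (hα : α ∈ V α) {k m : ℕ} (hk : BR α k) (hm : lq α k < m) :
    La α (tk k α ++ tk (m - lq α k) (dr (lq α k) (rf α))) ∧
      st α (tk k α ++ tk (m - lq α k) (dr (lq α k) (rf α))) = tk m (rf α) := by
  constructor
  · apply la_of_pre (switch_mem hα hk)
    refine ⟨dr (m - lq α k) (dr (lq α k) (rf α)), ?_⟩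
    rw [ap_ap, ap_tk_dr]
  · have h1 : m - lq α k = 1 + (m - lq α k - 1) := by omega
    rw [h1, tk_add, tk_one, ← List.append_assoc, st_append]
    have h2 : dr (lq α k) (rf α) 0 = rf α (lq α k) := by simp [dr]
    rw [h2, switch_st hα hk, dr_dr, ← tk_add]
    have h3 : lq α k + 1 + (m - lq α k - 1) = m := by omega
    rw [h3]
    exact st_self (Or.inr (pre_tk _ _))

theorem half1 {α : Sq M} (hα : α ∈ V α) (hnd : (α 0).rev ≠ α 0) {k : ℕ} (hk : BR α k)
    (h0 : 0 < k) : Half α (tk k α) (tk (k - lq α k) (dr (lq α k) (rf α))) := by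
  have h1 := switch hα hk (lq_lt hnd h0)
  refine ⟨?_, h1.1, ?_⟩
  · have := lq_lt hnd h0
    intro h
    have h2 := congrArg List.length h
    simp at h2
    omega
  · rw [h1.2, rw'_tk]

theorem half2 {α : Sq M} (hα : α ∈ V α) {k m : ℕ} (hm : BR α m)
    (hkm : k < m) (hl : lq α m < k) :
    Half α (tk k α) (tk (m - k) (dr k α) ++ tk (k - lq α m) (dr (lq α m) (rf α))) := by
  have h1 := switch hα hm hl
  have h2 : tk k α ++ (tk (m - k) (dr k α) ++ tk (k - lq α m) (dr (lq α m) (rf α))) =
      tk m α ++ tk (k - lq α m) (dr (lq α m) (rf α)) := by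
    rw [← List.append_assoc, ← tk_split hkm.le]
  refine ⟨?_, ?_, ?_⟩
  · intro h
    have h2 := congrArg List.length h
    simp at h2
    omega
  · rw [h2]; exact h1.1
  · rw [h2, h1.2, rw'_tk]

/-- two different loops at one state -/
def Two (α : Sq M) : Prop := ∃ u e f, Loop α u e ∧ Loop α u f ∧ WLt e f

theorem wlt_head {e f : Wd M} (he : 0 < e.length) (hf : 0 < f.length) (h : e[0] < f[0]) :
    WLt e f := ⟨0, he, hf, fun i hi => absurd hi (Nat.not_lt_zero i), h⟩

theorem two_of_lq {α : Sq M} (hα : α ∈ V α) (hnd : (α 0).rev ≠ α 0) {k m : ℕ} (h0 : 0 < k)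
    (hk : BR α k) (hm : BR α m) (hkm : k < m) (hl : lq α m < k) : Two α := by
  have h1 := half1 hα hnd hk h0
  have h2 := half2 hα hm hkm hl
  refine ⟨_, _, _, h1.loop, h2.loop, WLt.append (wlt_head ?_ ?_ ?_) _ _⟩
  · have := lq_lt hnd h0; simp; omega
  · simp; omega
  · have hk' : rf α (lq α k) < α k := hk
    rw [List.getElem_append_left (by simp; omega)]
    simpa [dr] using hk'

theorem two_of_gap {α : Sq M} (hα : α ∈ V α) (hnd : (α 0).rev ≠ α 0) {k : ℕ} (h0 : 0 < k)
    {a : Fin (M + 1)} (h1 : rf α (lq α k) < a) (h2 : a < α k) : Two α := by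
  have hk : BR α k := h1.trans h2
  have h3 := half1 hα hnd hk h0
  have hst : st α (tk k α ++ [a]) = [] := by
    apply lsuf_eq (pq_nil α)
    · exact List.nil_suffix
    · exact pq_nil α
    · intro t ht hp
      rcases suffix_append_cases ht with h | ⟨t', rfl, h⟩
      · rcases List.suffix_cons_iff.1 h with rfl | h
        · exfalso
          rcases hp with ⟨z, hz⟩ | ⟨z, hz⟩
          · have h4 := congrFun hz 0
            have h5 := pp_suffix_le hα (k := k) (t := []) List.nil_suffix (pre_nil _)
            simp [ap] at h4 h5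
            rw [h4] at h5
            exact absurd h2 (not_lt.2 h5)
          · have h4 := congrFun hz 0
            have h5 := symbol_bounds (α := α) (k := k) (a := α k) (by rw [← tk_succ]; exact la_tk hα _)
            simp [ap] at h4
            have h6 : rf α 0 ≤ rf α (lq α k) := by
              have h7 := (V_rf hα) (lq α k)
              have h8 := le_head h7.1
              simpa [dr] using h8
            rw [h4] at h6
            exact absurd h1 (not_lt.2 h6)
        · exact h
      · exfalso
        rcases hp with hp | hq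
        · have h4 := pp_suffix_le hα h hp.left
          obtain ⟨z, hz⟩ := hp
          have h5 := congrFun hz t'.length
          rw [ap_ap, ap_ge le_rfl] at h5
          simp [ap] at h5
          rw [h5] at h4
          exact absurd h2 (not_lt.2 h4)
        · have hq' := hq.left
          obtain ⟨s, hs⟩ := lq_max h hq'
          have h4 : ap (tk (lq α k) (rf α)) (dr (lq α k) (rf α)) = rf α := ap_tk_dr _ _
          rw [← hs, ap_ap] at h4
          have h5 : ap t' (dr (lq α k) (rf α)) ∈ V α :=
            V_of_ap (w := s) (by rw [h4]; exact V_rf hα)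
          have h6 := (h5 0).1
          rw [dr_zero] at h6
          conv_lhs at h6 => rw [← ap_tk_dr t'.length (rf α), ← qq_tk hq']
          have h7 := le_head ((ap_le_ap _).1 h6)
          obtain ⟨z, hz⟩ := hq
          have h8 := congrFun hz t'.length
          rw [ap_ap, ap_ge le_rfl] at h8
          simp [ap] at h8
          simp [dr] at h7
          rw [h8] at h7
          exact absurd h1 (not_lt.2 h7)
  have hla : La α (tk k α ++ [a]) := by
    refine ⟨α, ?_⟩
    rw [ap_ap, ap_mem_iff (la_tk hα k)]
    refine ⟨?_, fun t ht => ⟨fun hp => ?_, fun hq => ?_⟩⟩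
    · rw [ap_mem_iff]
      · refine ⟨hα, fun t ht => ?_⟩
        rcases List.suffix_cons_iff.1 ht with rfl | h
        · constructor
          · intro hp
            have h5 := pp_suffix_le hα (k := k) (t := []) List.nil_suffix (pre_nil _)
            refine Lt.le ⟨0, by simp, ?_⟩
            simp [ap]
            exact lt_of_lt_of_le h2 (by simpa using h5)
          · intro hq
            refine Lt.le ⟨0, by simp, ?_⟩
            simp only [ap]
            have h7 := (V_rf hα) (lq α k)
            have h8 := le_head h7.1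
            simp only [dr, Nat.add_zero] at h8
            simpa using lt_of_le_of_lt h8 h1
        · have : t = [] := by simpa using h
          subst this
          simp only [ap_nil]
          have := hα 0
          rw [dr_zero] at this
          exact ⟨fun _ => this.2, fun _ => this.1⟩
      · refine ⟨α, fun n => ?_⟩
        rcases Nat.eq_zero_or_pos n with rfl | hn
        · rw [dr_zero]
          constructor
          · refine Lt.le ⟨0, by simp, ?_⟩
            simp only [ap]
            have h7 := (V_rf hα) (lq α k)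
            have h8 := le_head h7.1
            simp only [dr, Nat.add_zero] at h8
            simpa using lt_of_le_of_lt h8 h1
          · have h5 := pp_suffix_le hα (k := k) (t := []) List.nil_suffix (pre_nil _)
            refine Lt.le ⟨0, by simp, ?_⟩
            simp [ap]
            exact lt_of_lt_of_le h2 (by simpa using h5)
        · have : dr n (ap [a] α) = dr (n - 1) α := by
            have h9 : n = 1 + (n - 1) := by omega
            conv_lhs => rw [h9, ← dr_dr]
            congr 1
            exact dr_ap [a] α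
          rw [this]
          exact hα _
    · have h4 := pp_suffix_le hα ht hp
      conv_rhs => rw [← ap_tk_dr t.length α, ← pp_tk hp]
      refine (ap_le_ap _).2 (Lt.le ⟨0, by simp, ?_⟩)
      simp only [dr, Nat.add_zero]
      simpa [ap] using lt_of_lt_of_le h2 h4
    · obtain ⟨s, hs⟩ := lq_max ht hq
      have h4 : ap (tk (lq α k) (rf α)) (dr (lq α k) (rf α)) = rf α := ap_tk_dr _ _
      rw [← hs, ap_ap] at h4
      have h5 : ap t (dr (lq α k) (rf α)) ∈ V α :=
        V_of_ap (w := s) (by rw [h4]; exact V_rf hα)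
      have h6 := (h5 0).1
      rw [dr_zero] at h6
      refine h6.trans ((ap_le_ap _).2 (Lt.le ⟨0, by simp, ?_⟩))
      simpa [dr, ap] using h1
  have hloop : Loop α (tk k α) ([a] ++ tk k α) := by
    refine ⟨by simp, ?_, ?_⟩
    · rw [← List.append_assoc, la_append_iff hla, hst]
      simpa using la_tk hα k
    · rw [← List.append_assoc, st_append, hst]
      simpa using st_self (Or.inl (pre_tk k α))
  refine ⟨_, _, _, h3.loop, hloop, WLt.append (wlt_head ?_ ?_ ?_) _ _⟩
  · have := lq_lt hnd h0; simp; omega
  · simp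
  · simpa [dr] using h1

end Pool.Agent.H284.EM
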