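import Pool.Agent.H284.EM.Branch

/-! The structure of branching positions. -/

set_option autoImplicit false

namespace Pool.Agent.H284.EM

variable {M : ℕ}

theorem lq_zero (α : Sq M) : lq α 0 = 0 := Nat.le_zero.1 (lq_le α 0)

theorem eq_of_not_br {α : Sq M} (hα : α ∈ V α) {k : ℕ} (hk : ¬ BR α k) :
    rf α (lq α k) = α k := by
  have h := symbol_bounds (α := α) (k := k) (a := α k) (by rw [← tk_succ]; exact la_tk hα _)
  exact le_antisymm h.1 (not_lt.1 hk)

theorem lq_succ_of_not_br {α : Sq M} (hα : α ∈ V α) {k : ℕ} (hk : ¬ BR α k) :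
    lq α (k + 1) = lq α k + 1 := by
  have he := eq_of_not_br hα hk
  have h1 : tk (lq α k + 1) (rf α) <:+ tk (k + 1) α := by
    rw [tk_succ, tk_succ, he]
    obtain ⟨s, hs⟩ := lq_suffix α k
    exact ⟨s, by rw [← List.append_assoc, hs]⟩
  apply le_antisymm
  · have h2 := lq_suffix α (k + 1)
    rw [tk_succ k] at h2
    rcases suffix_append_cases h2 with h | ⟨t', h, h'⟩
    · have := h.length_le
      simp at this
      omega
    · have h3 : Pre (t' ++ [α k]) (rf α) := by rw [← h]; exact pre_tk _ _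
      have h4 := (lq_max h' h3.left).length_le
      have h5 := congrArg List.length h
      simp at h4 h5
      omega
  · have := (lq_max h1 (pre_tk _ _)).length_le
    simpa using this

theorem lq_succ_of_br {α : Sq M} (hα : α ∈ V α) {k : ℕ} (hk : BR α k) :
    lq α (k + 1) = 0 := by
  by_contra h0
  have h2 := lq_suffix α (k + 1)
  obtain ⟨m, hm⟩ := Nat.exists_eq_succ_of_ne_zero h0
  rw [hm, Nat.succ_eq_add_one, tk_succ, tk_succ k] at h2
  have h3 : tk m (rf α) <:+ tk k α ∧ rf α m = α k := by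
    obtain ⟨s, hs⟩ := h2
    rw [← List.append_assoc] at hs
    have := List.append_inj' hs (by simp)
    exact ⟨⟨s, this.1⟩, by simpa using this.2⟩
  obtain ⟨h3, h4⟩ := h3
  obtain ⟨s, hs⟩ := lq_max h3 (pre_tk _ _)
  have h5 : ap (tk (lq α k) (rf α)) (dr (lq α k) (rf α)) = rf α := ap_tk_dr _ _
  rw [← hs, ap_ap] at h5
  have h6 : ap (tk m (rf α)) (dr (lq α k) (rf α)) ∈ V α :=
    V_of_ap (w := s) (by rw [h5]; exact V_rf hα)
  have h7 := (h6 0).1
  rw [dr_zero] at h7
  conv_lhs at h7 => rw [← ap_tk_dr m (rf α)]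
  have h8 := le_head ((ap_le_ap _).1 h7)
  simp only [dr, Nat.add_zero] at h8
  rw [h4] at h8
  exact absurd hk (not_lt.2 h8)

/-- between consecutive branchings -/
theorem run {α : Sq M} (hα : α ∈ V α) {b : ℕ} (hb : BR α b) (i : ℕ)
    (h : ∀ k, b < k → k < b + 1 + i → ¬ BR α k) : lq α (b + 1 + i) = i := by
  induction i with
  | zero => exact lq_succ_of_br hα hb
  | succ i ih =>
    rw [← Nat.add_assoc, lq_succ_of_not_br hα (h _ (by omega) (by omega)),
      ih (fun k h1 h2 => h k h1 (by omega))]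

/-- consecutive branchings, if there are no two loops at one state -/
theorem next_branch {α : Sq M} (hα : α ∈ V α) (hnd : (α 0).rev ≠ α 0) (hT : ¬ Two α) {b b' : ℕ}
    (h0 : 0 < b) (hb : BR α b) (hb' : BR α b') (hbb : b < b')
    (h : ∀ k, b < k → k < b' → ¬ BR α k) : b' = 2 * b + 1 := by
  obtain ⟨m, rfl⟩ : ∃ m, b' = b + 1 + m := ⟨b' - b - 1, by omega⟩
  have hm := run hα hb m h
  have h1 : b ≤ m := by
    by_contra hc
    exact hT (two_of_lq hα hnd h0 hb hb' hbb (by rw [hm]; omega))
  have h2 : m ≤ b := by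
    by_contra hc
    push Not at hc
    have he : ∀ i < m, α (b + 1 + i) = rf α i := by
      intro i hi
      have := lq_entries α (b + 1 + m) i (by rw [hm]; exact hi)
      rw [hm] at this
      rw [← this]
      congr 1
      omega
    have hlt : Lt α (dr (2 * (b + 1)) α) := by
      refine ⟨m - (b + 1), fun i hi => ?_, ?_⟩
      · have h3 := he (b + 1 + i) (by omega)
        have h4 := he i (by omega)
        simp only [dr]
        rw [show 2 * (b + 1) + i = b + 1 + (b + 1 + i) by ring, h3]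
        simp only [rf] at h4 ⊢
        rw [h4]
        simp
      · have h4 := he (m - (b + 1)) (by omega)
        have hbr : rf α (lq α (b + 1 + m)) < α (b + 1 + m) := hb'
        rw [hm] at hbr
        simp only [dr]
        rw [show 2 * (b + 1) + (m - (b + 1)) = b + 1 + m by omega]
        refine lt_of_eq_of_lt ?_ hbr
        simp only [rf] at h4 ⊢
        rw [show b + 1 + (m - (b + 1)) = m by omega] at h4
        rw [h4]
        simp
    exact not_le.2 hlt (hα _).2
  omega

theorem exists_next {α : Sq M} (hα : α ∈ V α) (hnd : (α 0).rev ≠ α 0) (hT : ¬ Two α)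
    (hinf : ∀ n, ∃ k, n < k ∧ BR α k) {b : ℕ} (h0 : 0 < b) (hb : BR α b) :
    BR α (2 * b + 1) ∧ lq α (2 * b + 1) = b := by
  classical
  have hex := hinf b
  obtain ⟨h1, h2⟩ := Nat.find_spec hex
  have h3 : ∀ k, b < k → k < Nat.find hex → ¬ BR α k := fun k hk hk' hbr =>
    Nat.find_min hex hk' ⟨hk, hbr⟩
  have h4 := next_branch hα hnd hT h0 hb h2 h1 h3
  rw [h4] at h2 h3
  refine ⟨h2, ?_⟩
  have h5 := run hα hb b (fun k hk hk' => h3 k hk (by omega))
  rw [← h5]
  congr 1
  rw [h5]
  omega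

theorem gap {α : Sq M} (hα : α ∈ V α) (hnd : (α 0).rev ≠ α 0) (hT : ¬ Two α) {k : ℕ}
    (h0 : 0 < k) {a : Fin (M + 1)} (h1 : rf α (lq α k) ≤ a) (h2 : a ≤ α k) :
    a = rf α (lq α k) ∨ a = α k := by
  by_contra hc
  push Not at hc
  exact hT (two_of_gap hα hnd h0 (lt_of_le_of_ne h1 hc.1.symm) (lt_of_le_of_ne h2 hc.2))

theorem eq_ap_tk (n m : ℕ) (z : Sq M) : dr n z = ap (tk m (dr n z)) (dr (n + m) z) := by
  rw [← dr_dr, ap_tk_dr]

/-- the four kinds of aligned blocks -/
def Kind (α z : Sq M) (b n : ℕ) : Prop :=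
  (∀ i ≤ b, z (n + i) = α i) ∨ (∀ i ≤ b, z (n + i) = rf α i) ∨
  ((∀ i < b, z (n + i) = rf α i) ∧ z (n + b) = α (2 * b + 1) ∧
      ∀ i ≤ b, z (n + (b + 1) + i) = rf α i) ∨
  ((∀ i < b, z (n + i) = α i) ∧ z (n + b) = rf α (2 * b + 1) ∧
      ∀ i ≤ b, z (n + (b + 1) + i) = α i)

theorem block {α : Sq M} (hα : α ∈ V α) (hnd : (α 0).rev ≠ α 0) (hT : ¬ Two α) {b : ℕ}
    (h1 : BR α (2 * b + 1)) (h2 : lq α (2 * b + 1) = b)
    (h4 : lq α (4 * b + 3) = 2 * b + 1) {z : Sq M} (hz : z ∈ V α) {n : ℕ}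
    (hn : ∀ i ≤ b, z (n + i) = α i) :
    (∀ i ≤ b, z (n + (b + 1) + i) = rf α i) ∨
      ((∀ i < b, z (n + (b + 1) + i) = rf α i) ∧ z (n + (b + 1) + b) = α (2 * b + 1) ∧
        ∀ i ≤ b, z (n + (b + 1) + (b + 1) + i) = rf α i) := by
  have he : ∀ i < b, α (b + 1 + i) = rf α i := by
    intro i hi
    have := lq_entries α (2 * b + 1) i (by rw [h2]; exact hi)
    rw [h2] at this
    rw [← this]; congr 1; omega
  have he2 : ∀ i < 2 * b + 1, α (2 * b + 2 + i) = rf α i := by
    intro i hi
    have := lq_entries α (4 * b + 3) i (by rw [h4]; exact hi)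
    rw [h4] at this
    rw [← this]; congr 1; omega
  -- the remainder after the block
  have hz1 : dr n z = ap (tk (b + 1) α) (dr (n + (b + 1)) z) := by
    rw [eq_ap_tk n (b + 1) z]
    congr 1
    apply List.ext_getElem (by simp)
    intro i hi hi'
    simp only [getElem_tk]
    exact hn i (by simp at hi; omega)
  have hup : Le (dr (n + (b + 1)) z) (dr (b + 1) α) := by
    have := (hz n).2
    rw [hz1] at this
    conv_rhs at this => rw [← ap_tk_dr (b + 1) α]
    exact (ap_le_ap _).1 this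
  have hlo := (hz (n + (b + 1))).1
  obtain ⟨hs1, hs2, hs3⟩ := squeeze (n := b) hlo hup (fun i hi => (he i hi).symm)
  have hs1' : ∀ i < b, z (n + (b + 1) + i) = rf α i := hs1
  have hs2' : rf α b ≤ z (n + (b + 1) + b) := hs2
  have hs3' : z (n + (b + 1) + b) ≤ α (2 * b + 1) := by
    refine le_trans hs3 (le_of_eq ?_)
    simp only [dr]
    congr 1; omega
  rcases gap hα hnd hT (k := 2 * b + 1) (by omega) (a := z (n + (b + 1) + b))
    (by rw [h2]; exact hs2') hs3' with h | h
  · left
    intro i hi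
    rcases hi.lt_or_eq with hi | rfl
    · exact hs1' i hi
    · rw [h, h2]
  · right
    refine ⟨hs1', h, ?_⟩
    have hz2 : dr (n + (b + 1)) z = ap (tk (b + 1) (dr (b + 1) α)) (dr (n + (b + 1) + (b + 1)) z) := by
      rw [eq_ap_tk (n + (b + 1)) (b + 1) z]
      congr 1
      apply List.ext_getElem (by simp)
      intro i hi hi'
      simp only [getElem_tk, dr]
      have hi'' : i ≤ b := by simp at hi; omega
      rcases hi''.lt_or_eq with hi'' | rfl
      · rw [hs1' i hi'', he i hi'']
      · rw [h]; congr 1; omega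
    have hup2 : Le (dr (n + (b + 1) + (b + 1)) z) (dr (2 * b + 2) α) := by
      rw [hz2] at hup
      conv_rhs at hup => rw [← ap_tk_dr (b + 1) (dr (b + 1) α)]
      have := (ap_le_ap _).1 hup
      rw [dr_dr, show b + 1 + (b + 1) = 2 * b + 2 by ring] at this
      exact this
    obtain ⟨hs4, _, _⟩ := squeeze (n := b + 1) (hz (n + (b + 1) + (b + 1))).1 hup2
      (fun i hi => (he2 i (by omega)).symm)
    intro i hi
    exact hs4 i (by omega)

theorem kind_next {α : Sq M} (hα : α ∈ V α) (hnd : (α 0).rev ≠ α 0) (hT : ¬ Two α) {b : ℕ}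
    (h1 : BR α (2 * b + 1)) (h2 : lq α (2 * b + 1) = b)
    (h4 : lq α (4 * b + 3) = 2 * b + 1) {z : Sq M} (hz : z ∈ V α) {n : ℕ}
    (hn : Kind α z b n) : Kind α z b (n + (b + 1)) := by
  rcases hn with hn | hn | hn | hn
  · rcases block hα hnd hT h1 h2 h4 hz hn with h | h
    · exact Or.inr (Or.inl h)
    · exact Or.inr (Or.inr (Or.inl h))
  · have hz' := V_rf hz
    rcases block hα hnd hT h1 h2 h4 hz' (n := n) (fun i hi => by
      simp only [rf]; rw [hn i hi]; simp [rf]) with h | ⟨h, h', h''⟩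
    · left
      intro i hi
      have := h i hi
      simpa [rf] using this
    · right; right; right
      refine ⟨fun i hi => ?_, ?_, fun i hi => ?_⟩
      · have := h i hi
        simpa [rf] using this
      · simp only [rf] at h' ⊢
        rw [← h']; simp
      · have := h'' i hi
        simpa [rf] using this
  · exact Or.inr (Or.inl hn.2.2)
  · exact Or.inl hn.2.2

theorem kind_all {α : Sq M} (hα : α ∈ V α) (hnd : (α 0).rev ≠ α 0) (hT : ¬ Two α) {b : ℕ}
    (h1 : BR α (2 * b + 1)) (h2 : lq α (2 * b + 1) = b)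
    (h4 : lq α (4 * b + 3) = 2 * b + 1) {z : Sq M} (hz : z ∈ V α) 
    (hn : ∀ i ≤ b, z i = α i) (m : ℕ) : Kind α z b (m * (b + 1)) := by
  induction m with
  | zero => left; intro i hi; simpa using hn i hi
  | succ m ih =>
    rw [Nat.succ_mul]
    exact kind_next hα hnd hT h1 h2 h4 hz ih

theorem kind_ne {α : Sq M} (hα : α ∈ V α) (hnd : (α 0).rev ≠ α 0) (hT : ¬ Two α) {b : ℕ}
    (h0 : 0 < b)
    (h1 : BR α (2 * b + 1)) (h2 : lq α (2 * b + 1) = b)
    (h4 : lq α (4 * b + 3) = 2 * b + 1) {z : Sq M} (hz : z ∈ V α) {n : ℕ}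
    (hn : Kind α z b n) : ∃ i ≤ b, z (n + i) ≠ z (n + (b + 1) + i) := by
  have hbr : rf α b < α (2 * b + 1) := by
    have : rf α (lq α (2 * b + 1)) < α (2 * b + 1) := h1
    rwa [h2] at this
  rcases hn with hn | hn | hn | hn
  · refine ⟨0, by omega, ?_⟩
    rcases block hα hnd hT h1 h2 h4 hz hn with h | h
    · rw [hn 0 (by omega), h 0 (by omega)]
      exact hnd.symm
    · rw [hn 0 (by omega), h.1 0 (by omega)]
      exact hnd.symm
  · refine ⟨0, by omega, ?_⟩
    have hz' := V_rf hz
    have h6 : (rf z) (n + (b + 1) + 0) = rf α 0 := by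
      rcases block hα hnd hT h1 h2 h4 hz' (n := n) (fun i hi => by
        simp only [rf]; rw [hn i hi]; simp [rf]) with h | h
      · exact h 0 (by omega)
      · exact h.1 0 (by omega)
    have h7 : z (n + (b + 1) + 0) = α 0 := by simpa [rf] using h6
    rw [hn 0 (by omega), h7]
    exact hnd
  · refine ⟨b, le_rfl, ?_⟩
    rw [hn.2.1, hn.2.2 b le_rfl]
    exact hbr.ne'
  · refine ⟨b, le_rfl, ?_⟩
    rw [hn.2.1, hn.2.2 b le_rfl]
    intro h
    apply hbr.ne'
    rw [← Fin.rev_rev (α (2 * b + 1))]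
    simp only [rf] at h ⊢
    rw [h]

/-- no infinite branching without two loops at one state -/
theorem not_infinite {α : Sq M} (hα : α ∈ V α) (hnd : (α 0).rev ≠ α 0) (htr : Tr α)
    (hT : ¬ Two α) (hinf : ∀ n, ∃ k, n < k ∧ BR α k) : False := by
  obtain ⟨b0, h0, hb0⟩ := hinf 0
  obtain ⟨h1, h1'⟩ := exists_next hα hnd hT hinf h0 hb0
  set b := 2 * b0 + 1 with hb
  obtain ⟨h2, h2'⟩ := exists_next hα hnd hT hinf (b := b) (by omega) h1
  obtain ⟨h3, h3'⟩ := exists_next hα hnd hT hinf (b := 2 * b + 1) (by omega) h2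
  rw [show 2 * (2 * b + 1) + 1 = 4 * b + 3 by ring] at h3'
  -- the period word
  have hsw := switch hα (k := b) (m := b0 + 1) h1 (by rw [h1']; omega)
  rw [h1', show b0 + 1 - b0 = 1 by omega] at hsw
  have htk : tk b α = tk (b0 + 1) α ++ tk b0 (rf α) := by
    rw [tk_split (show b0 + 1 ≤ b by omega)]
    congr 1
    rw [show b - (b0 + 1) = b0 by omega]
    apply List.ext_getElem (by simp)
    intro i hi hi'
    have hi'' : i < b0 := by simpa using hi
    simp only [getElem_tk, dr]
    have := lq_entries α b i (by rw [h1']; exact hi'')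
    rw [h1'] at this
    rw [← this]
    congr 1
    omega
  have htk2 : tk b α ++ tk 1 (dr b0 (rf α)) = tk (b0 + 1) α ++ tk (b0 + 1) (rf α) := by
    rw [htk, List.append_assoc, ← tk_add]
  rw [htk2] at hsw
  have hhalf : Half α (tk (b0 + 1) α) (rw' (tk (b0 + 1) α)) := by
    refine ⟨?_, ?_, ?_⟩
    · intro h
      have := congrArg List.length h
      simp at this
    · rw [rw'_tk]; exact hsw.1
    · rw [rw'_tk]; exact hsw.2
  have hloop := hhalf.loop
  set e := rw' (tk (b0 + 1) α) ++ rw' (rw' (tk (b0 + 1) α)) with he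
  have hel : e.length = b + 1 := by simp [he]; omega
  have h5 : La α (e ++ (e ++ e)) := (hloop.append (hloop.append hloop)).2.1.right
  obtain ⟨v, hv⟩ := htr (tk (b + 1) α) _ (la_tk hα (b + 1)) h5
  obtain ⟨x, hx⟩ := hv
  set N := (tk (b + 1) α ++ v).length with hN
  set z := ap (tk (b + 1) α ++ v ++ (e ++ (e ++ e))) x with hzdef
  have hz0 : ∀ i ≤ b, z i = α i := by
    intro i hi
    rw [hzdef, List.append_assoc, ap_ap, ap_lt (by simp; omega)]
    simp
  have hper : ∀ i, i < 2 * (b + 1) → z (N + i) = z (N + (b + 1) + i) := by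
    intro i hi
    have key : ∀ y : Sq M, ∀ j, z (N + j) = ap (e ++ (e ++ e)) x j := by
      intro y j
      rw [hzdef, ap_ap, ap_add]
    have k2 : ∀ j, j < 3 * (b + 1) → (e ++ (e ++ e))[j]? = e[j % (b + 1)]? := by
      intro j hj
      rcases lt_or_ge j (b + 1) with h | h
      · rw [List.getElem?_append_left (by omega), Nat.mod_eq_of_lt h]
      · rw [List.getElem?_append_right (by omega), hel]
        rcases lt_or_ge j (2 * (b + 1)) with h' | h'
        · rw [List.getElem?_append_left (by omega)]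
          congr 1
          rw [← Nat.mod_eq_of_lt (show j - (b + 1) < b + 1 by omega)]
          conv_rhs => rw [show j = j - (b + 1) + (b + 1) by omega, Nat.add_mod_right]
        · rw [List.getElem?_append_right (by omega), hel]
          congr 1
          rw [← Nat.mod_eq_of_lt (show j - (b + 1) - (b + 1) < b + 1 by omega)]
          conv_rhs => rw [show j = j - (b + 1) - (b + 1) + (b + 1) + (b + 1) by omega,
            Nat.add_mod_right, Nat.add_mod_right]
    have k3 : ∀ j, (hj : j < 3 * (b + 1)) →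
        some (ap (e ++ (e ++ e)) x j) = e[j % (b + 1)]? := by
      intro j hj
      have hl : j < (e ++ (e ++ e)).length := by simp [hel]; omega
      rw [← k2 j hj, ap_lt hl, List.getElem?_eq_getElem hl]
    rw [key x, Nat.add_assoc, key x]
    have := k3 i (by omega)
    have h6 := k3 (b + 1 + i) (by omega)
    rw [Nat.add_mod_left] at h6
    exact Option.some.inj (this.trans h6.symm)
  set m := (N + b) / (b + 1) with hm
  have hm1 : N ≤ m * (b + 1) := by
    have := Nat.div_add_mod (N + b) (b + 1)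
    have h7 := Nat.mod_lt (N + b) (show 0 < b + 1 by omega)
    rw [← hm] at this
    nlinarith
  have hm2 : m * (b + 1) ≤ N + b := Nat.div_mul_le_self _ _
  have hk := kind_all hα hnd hT h2 h2' h3' hx hz0 m
  obtain ⟨i, hi, hne⟩ := kind_ne hα hnd hT (by omega) h2 h2' h3' hx hk
  apply hne
  have := hper (m * (b + 1) - N + i) (by omega)
  rw [show N + (m * (b + 1) - N + i) = m * (b + 1) + i by omega,
    show N + (b + 1) + (m * (b + 1) - N + i) = m * (b + 1) + (b + 1) + i by omega] at this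
  exact this

end Pool.Agent.H284.EM
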