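import Pool.Agent.H284.EM.Branch2

/-! Without two loops at one state, the shift has no proper subshift. -/

set_option autoImplicit false

open Filter Topology

namespace Pool.Agent.H284.EM

variable {M : ℕ}

theorem mem_of_closed {X : Set (Sq M)} (hX : IsClosed X) {y : Sq M}
    (h : ∀ n, ∃ z ∈ X, ∀ i < n, z i = y i) : y ∈ X := by
  choose z hz using h
  have h1 : Tendsto z atTop (𝓝 y) := by
    rw [tendsto_pi_nhds]
    intro i
    refine tendsto_const_nhds.congr' ?_
    rw [EventuallyEq, eventually_atTop]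
    exact ⟨i + 1, fun n hn => ((hz n).2 i (by omega)).symm⟩
  exact hX.mem_of_tendsto h1 (Eventually.of_forall fun n => (hz n).1)

theorem tk_congr {n : ℕ} {x y : Sq M} (h : ∀ i < n, x i = y i) : tk n x = tk n y := by
  apply List.ext_getElem (by simp)
  intro i hi hi'
  simp only [getElem_tk]
  exact h i (by simpa using hi)

theorem unique_cont {α : Sq M} (hα : α ∈ V α) {N : ℕ} (h : ∀ k, N ≤ k → ¬ BR α k) {z : Sq M}
    (hz : z ∈ V α) (hp : ∀ i < N, z i = α i) : z = α := by
  have key : ∀ k, ∀ i < k, z i = α i := by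
    intro k
    induction k with
    | zero => intro i hi; omega
    | succ k ih =>
      intro i hi
      rcases Nat.lt_succ_iff_lt_or_eq.1 hi with hi | rfl
      · exact ih i hi
      rcases lt_or_ge i N with hN | hN
      · exact hp i hN
      have h1 : La α (tk i α ++ [z i]) := by
        rw [← tk_congr ih, ← tk_succ]
        exact la_tk hz _
      obtain ⟨h2, h3⟩ := symbol_bounds h1
      rw [eq_of_not_br hα (h i hN)] at h2
      exact le_antisymm h3 h2
  funext i
  exact key (i + 1) i (by omega)

theorem dr_mem {X : Set (Sq M)} (hinv : ∀ x ∈ X, dr 1 x ∈ X) {x : Sq M} (hx : x ∈ X) (n : ℕ) :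
    dr n x ∈ X := by
  induction n with
  | zero => simpa using hx
  | succ n ih =>
    have := hinv _ ih
    rwa [dr_dr] at this

theorem total_of_finite {α : Sq M} (hα : α ∈ V α) (htr : Tr α) {N : ℕ} (h0 : 0 < N)
    (h : ∀ k, N ≤ k → ¬ BR α k) {X : Set (Sq M)} (hcl : IsClosed X) (hne : X.Nonempty)
    (hinv : ∀ x ∈ X, dr 1 x ∈ X) (hsub : X ⊆ V α) : X = V α := by
  -- occurrences
  have hocc : ∀ w, La α w → ∃ i, N ≤ i ∧ Pre w (dr i α) := by
    intro w hw
    obtain ⟨v, x, hx⟩ := htr (tk N α) w (la_tk hα N) hw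
    have h1 : ap (tk N α ++ v ++ w) x = α := by
      apply unique_cont hα h hx
      intro i hi
      rw [List.append_assoc, ap_ap, ap_lt (by simpa using hi)]
      simp
    have h2 : dr (tk N α ++ v).length (ap (tk N α ++ v ++ w) x) = ap w x := by
      rw [ap_ap, dr_ap]
    rw [h1] at h2
    exact ⟨(tk N α ++ v).length, by simp, x, h2⟩
  have hocc' : ∀ y ∈ V α, ∀ n, ∃ i, N ≤ i ∧ ∀ k < n, y k = α (i + k) := by
    intro y hy n
    obtain ⟨i, hi, hp⟩ := hocc _ (la_tk hy n)
    refine ⟨i, hi, fun k hk => ?_⟩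
    rw [pre_iff, length_tk] at hp
    have h2 : (tk n (dr i α))[k]'(by simpa using hk) = (tk n y)[k]'(by simpa using hk) := by
      simp only [hp]
    simpa [dr] using h2.symm
  -- periodicity
  obtain ⟨P, hP, hPp⟩ := hocc' α hα N
  have hper : dr P α = α := by
    apply unique_cont hα h (V_dr hα P)
    intro i hi
    exact (hPp i hi).symm
  have hper' : ∀ m k, α (P * m + k) = α k := by
    intro m
    induction m with
    | zero => intro k; simp
    | succ m ih =>
      intro k
      have := congrFun hper (P * m + k)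
      simp only [dr] at this
      rw [ih] at this
      rw [← this]
      congr 1
      ring
  -- `α ∈ X`
  have hαX : α ∈ X := by
    obtain ⟨x, hx⟩ := hne
    obtain ⟨i, hi, hk⟩ := hocc' x (hsub hx) (2 * P)
    have hPpos : 0 < P := by omega
    have hmod := Nat.mod_lt i hPpos
    have hdm := Nat.div_add_mod i P
    have h2 : dr (P - i % P) x = α := by
      apply unique_cont hα h (V_dr (hsub hx) _)
      intro k hkN
      simp only [dr]
      rw [hk _ (by omega), ← hper' (i / P + 1) k]
      congr 1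
      have h3 : P * (i / P + 1) = P * (i / P) + P := by ring
      omega
    rw [← h2]
    exact dr_mem hinv hx _
  apply Set.Subset.antisymm hsub
  intro y hy
  apply mem_of_closed hcl
  intro n
  obtain ⟨i, _, hk⟩ := hocc' y hy n
  exact ⟨dr i α, dr_mem hinv hαX i, fun k hkn => (hk k hkn).symm⟩

/-- **Dichotomy.** -/
theorem total_of_not_two {α : Sq M} (hα : α ∈ V α) (hnd : (α 0).rev ≠ α 0) (htr : Tr α)
    (hT : ¬ Two α) {X : Set (Sq M)} (hcl : IsClosed X) (hne : X.Nonempty)
    (hinv : ∀ x ∈ X, dr 1 x ∈ X) (hsub : X ⊆ V α) : X = V α := by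
  have h : ¬ ∀ n, ∃ k, n < k ∧ BR α k := fun hinf => not_infinite hα hnd htr hT hinf
  push Not at h
  obtain ⟨n, hn⟩ := h
  exact total_of_finite hα htr (Nat.succ_pos n) (fun k hk => hn k hk) hcl hne hinv hsub

end Pool.Agent.H284.EM
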