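import Pool.Agent.H284.EM.Loops

/-! Words which are rarely in a shallow state are few. -/

set_option autoImplicit false

open Finset

namespace Pool.Agent.H284.EM

variable {M : ℕ}

/-- all words of length `n` -/
def wds (M : ℕ) : ℕ → Finset (Wd M)
  | 0 => {[]}
  | n + 1 => (wds M n ×ˢ (univ : Finset (Fin (M + 1)))).image (fun p => p.1 ++ [p.2])

theorem mem_wds {n : ℕ} {w : Wd M} : w ∈ wds M n ↔ w.length = n := by
  induction n generalizing w with
  | zero => simp [wds, List.length_eq_zero_iff]
  | succ n ih =>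
    simp only [wds, mem_image, mem_product, mem_univ, and_true, Prod.exists]
    constructor
    · rintro ⟨v, a, hv, rfl⟩
      simp [ih.1 hv]
    · intro h
      rcases List.eq_nil_or_concat' w with rfl | ⟨v, a, rfl⟩
      · simp at h
      · exact ⟨v, a, ih.2 (by simpa using h), rfl⟩

theorem sum_wds_succ (n : ℕ) (f : Wd M → ℝ) :
    ∑ w ∈ wds M (n + 1), f w = ∑ w ∈ wds M n, ∑ a : Fin (M + 1), f (w ++ [a]) := by
  rw [wds, sum_image, sum_product]
  rintro ⟨v, a⟩ _ ⟨v', a'⟩ _ h
  have := List.append_inj' h (by simp)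
  simp only [List.cons.injEq, and_true] at this
  exact Prod.ext this.1 this.2

/-- the number of non-empty prefixes with the property `P` -/
noncomputable def cnt (P : Wd M → Prop) (w : Wd M) : ℕ := by
  classical exact ((range w.length).filter (fun i => P (w.take (i + 1)))).card

open Classical in
theorem cnt_def (P : Wd M → Prop) (w : Wd M) :
    cnt P w = ((range w.length).filter (fun i => P (w.take (i + 1)))).card := by
  unfold cnt; congr

@[simp] theorem cnt_nil (P : Wd M → Prop) : cnt P [] = 0 := by simp [cnt_def]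

open Classical in
theorem cnt_concat (P : Wd M → Prop) (w : Wd M) (a : Fin (M + 1)) :
    cnt P (w ++ [a]) = cnt P w + if P (w ++ [a]) then 1 else 0 := by
  rw [cnt_def, cnt_def]
  have hl : (w ++ [a]).length = w.length + 1 := by simp
  rw [hl, range_add_one, filter_insert]
  have h1 : (w ++ [a]).take (w.length + 1) = w ++ [a] := by
    rw [List.take_of_length_le (by simp)]
  have h2 : (range w.length).filter (fun i => P ((w ++ [a]).take (i + 1))) =
      (range w.length).filter (fun i => P (w.take (i + 1))) := by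
    apply filter_congr
    intro i hi
    rw [List.take_append_of_le_length (by simpa using hi)]
  rw [h1, h2]
  split_ifs with h
  · rw [card_insert_of_notMem (by simp)]
  · simp

theorem cnt_append (P : Wd M → Prop) (w v : Wd M) :
    cnt P (w ++ v) = cnt P w + cnt (fun t => P (w ++ t)) v := by
  induction v using List.reverseRecOn with
  | nil => simp
  | append_singleton v a ih =>
    rw [← List.append_assoc, cnt_concat, cnt_concat, ih, List.append_assoc, Nat.add_assoc]

theorem cnt_congr {P Q : Wd M → Prop} (h : ∀ t, P t ↔ Q t) (w : Wd M) : cnt P w = cnt Q w := by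
  have : P = Q := funext fun t => propext (h t)
  rw [this]

/-- length of the longest suffix which is a prefix of `α` -/
noncomputable def pl (α : Sq M) (w : Wd M) : ℕ := (lsuf (PP α) w).length

theorem pp_nil (α : Sq M) : PP α [] := pre_nil _

theorem pl_suffix (α : Sq M) (w : Wd M) : tk (pl α w) α <:+ w := by
  have := lsuf_suffix (PP α) w
  rwa [pp_tk (lsuf_mem (pp_nil α) w)] at this

theorem pl_max {α : Sq M} {w t : Wd M} (ht : t <:+ w) (h : PP α t) : t <:+ tk (pl α w) α := by
  have := suffix_lsuf (pp_nil α) ht h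
  rwa [pp_tk (lsuf_mem (pp_nil α) w)] at this

theorem pl_concat_le (α : Sq M) (w : Wd M) (a : Fin (M + 1)) :
    pl α (w ++ [a]) ≤ pl α w + 1 := by
  have h2 := pl_suffix α (w ++ [a])
  rcases suffix_append_cases h2 with h | ⟨t', h, h'⟩
  · have := h.length_le
    simp at this
    omega
  · have h3 : Pre (t' ++ [a]) α := by rw [← h]; exact pre_tk _ _
    have h4 := (pl_max h' h3.left).length_le
    have h5 := congrArg List.length h
    simp at h4 h5
    omega

theorem le_head' {x z : Sq M} (h : Le x z) : x 0 ≤ z 0 := by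
  rcases h with rfl | ⟨n, h1, h2⟩
  · exact le_rfl
  · rcases Nat.eq_zero_or_pos n with rfl | hn
    · exact h2.le
    · exact (h1 0 hn).le

theorem le_pl {α : Sq M} {w : Wd M} {a : Fin (M + 1)} (h : La α (w ++ [a])) :
    a ≤ α (pl α w) := by
  obtain ⟨x, hx⟩ := h
  obtain ⟨s, hs⟩ := pl_suffix α w
  rw [ap_ap, ← hs, ap_ap] at hx
  have h1 := V_of_ap hx 0
  rw [dr_zero] at h1
  have h2 := h1.2
  conv_rhs at h2 => rw [← ap_tk_dr (pl α w) α]
  have h3 := le_head' ((ap_le_ap _).1 h2)
  simpa [dr, ap] using h3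

theorem pp_suffix_le' {α : Sq M} (hα : α ∈ V α) {k : ℕ} {t : Wd M} (ht : t <:+ tk k α)
    (hp : PP α t) : α k ≤ α t.length := by
  obtain ⟨s, hs⟩ := ht
  have h1 : ap (tk k α) (dr k α) = α := ap_tk_dr k α
  rw [← hs, ap_ap] at h1
  have h2 : ap t (dr k α) ∈ V α := V_of_ap (w := s) (by rw [h1]; exact hα)
  have h3 := h2 0
  rw [dr_zero] at h3
  have h4 := h3.2
  conv_rhs at h4 => rw [← ap_tk_dr t.length α, ← pp_tk hp]
  have h5 := le_head' ((ap_le_ap _).1 h4)
  simpa [dr] using h5

/-- a symbol different from the largest possible one breaks the run -/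
theorem pl_break {α : Sq M} (hα : α ∈ V α) {w : Wd M} {a : Fin (M + 1)}
    (h : La α (w ++ [a])) (ha : a ≠ α (pl α w)) : pl α (w ++ [a]) = 0 := by
  by_contra h0
  have h2 := pl_suffix α (w ++ [a])
  obtain ⟨m, hm⟩ := Nat.exists_eq_succ_of_ne_zero h0
  rw [hm, Nat.succ_eq_add_one, tk_succ] at h2
  have h3 : tk m α <:+ w ∧ α m = a := by
    obtain ⟨s, hs⟩ := h2
    rw [← List.append_assoc] at hs
    have := List.append_inj' hs (by simp)
    exact ⟨⟨s, this.1⟩, by simpa using this.2⟩
  have h4 := pp_suffix_le' hα (pl_max h3.1 (pre_tk _ _)) (pre_tk _ _)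
  rw [length_tk, h3.2] at h4
  exact ha (le_antisymm (le_pl h) h4)

/-- length of the longest suffix which is a prefix of the reflection of `α` -/
noncomputable def ql (α : Sq M) (w : Wd M) : ℕ := pl α (rw' w)

theorem rw'_concat (w : Wd M) (a : Fin (M + 1)) : rw' (w ++ [a]) = rw' w ++ [a.rev] := by
  simp [rw']

theorem ql_concat_le (α : Sq M) (w : Wd M) (a : Fin (M + 1)) :
    ql α (w ++ [a]) ≤ ql α w + 1 := by
  unfold ql; rw [rw'_concat]; exact pl_concat_le _ _ _

theorem ql_le {α : Sq M} {w : Wd M} {a : Fin (M + 1)} (h : La α (w ++ [a])) :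
    rf α (ql α w) ≤ a := by
  have h1 := h.rw
  rw [rw'_concat] at h1
  have := le_pl h1
  rw [← Fin.rev_rev a]
  exact Fin.rev_le_rev.2 this

theorem ql_break {α : Sq M} (hα : α ∈ V α) {w : Wd M} {a : Fin (M + 1)}
    (h : La α (w ++ [a])) (ha : a ≠ rf α (ql α w)) : ql α (w ++ [a]) = 0 := by
  have h1 := h.rw
  rw [rw'_concat] at h1
  unfold ql
  rw [rw'_concat]
  apply pl_break hα h1
  intro h2
  apply ha
  rw [← Fin.rev_rev a, h2]
  rfl

theorem st_length_le {α : Sq M} {w : Wd M} {K : ℕ} (hp : pl α w ≤ K) (hq : ql α w ≤ K) :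
    (st α w).length ≤ K := by
  rcases st_mem α w with h | h
  · have := (pl_max (st_suffix α w) h).length_le
    simp at this
    omega
  · have h1 : PP α (rw' (st α w)) := by
      obtain ⟨y, hy⟩ := h
      have h2 := congrArg rf hy
      rw [rf_rf, rf_ap] at h2
      exact ⟨rf y, h2⟩
    have := (pl_max (suffix_rw' (st_suffix α w)) h1).length_le
    simp only [length_rw', length_tk] at this
    exact this.trans hq

/-- number of shallow times -/
noncomputable def sh (α : Sq M) (K : ℕ) (w : Wd M) : ℕ :=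
  cnt (fun t => (st α t).length ≤ K) w

open Classical in
/-- the potential -/
noncomputable def pot (α : Sq M) (K : ℕ) (l θ : ℝ) (w : Wd M) : ℝ :=
  if La α w then θ ^ sh α K w * l ^ min (min (pl α w) (ql α w)) K else 0

theorem pot_nonneg {α : Sq M} {K : ℕ} {l θ : ℝ} (hl : 1 ≤ l) (hθ : 0 < θ) (w : Wd M) :
    0 ≤ pot α K l θ w := by
  unfold pot
  split_ifs
  · positivity
  · exact le_rfl

theorem sh_le_concat (α : Sq M) (K : ℕ) (w : Wd M) (a : Fin (M + 1)) :
    sh α K w ≤ sh α K (w ++ [a]) := by
  unfold sh; rw [cnt_concat]; omega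

theorem pot_step {α : Sq M} (hα : α ∈ V α) {K : ℕ} {l θ : ℝ} (hl : 1 ≤ l) (hθ : 0 < θ)
    (hθ1 : θ ≤ 1) (hK : (M + 1 : ℝ) ≤ l ^ K) (hθl : (M + 1 : ℝ) * θ ≤ l - 1) (w : Wd M) :
    ∑ a : Fin (M + 1), pot α K l θ (w ++ [a]) ≤ l * pot α K l θ w := by
  by_cases hw : La α w
  swap
  · have : ∀ a : Fin (M + 1), pot α K l θ (w ++ [a]) = 0 := fun a => by
      unfold pot; rw [if_neg]; exact fun h => hw h.left
    simp only [this, sum_const_zero]
    unfold pot; rw [if_neg hw, mul_zero]
  have hpot : pot α K l θ w = θ ^ sh α K w * l ^ min (min (pl α w) (ql α w)) K := by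
    unfold pot; rw [if_pos hw]
  have hl0 : 0 < l := by linarith
  by_cases hc : α (pl α w) = rf α (ql α w)
  · -- a single possible symbol
    rw [sum_eq_single (α (pl α w))]
    · unfold pot
      rw [if_pos hw]
      split_ifs with hwa
      · have h1 := pl_concat_le α w (α (pl α w))
        have h2 := ql_concat_le α w (α (pl α w))
        have h3 : θ ^ sh α K (w ++ [α (pl α w)]) ≤ θ ^ sh α K w :=
          pow_le_pow_of_le_one hθ.le hθ1 (sh_le_concat _ _ _ _)
        have h4 : l ^ min (min (pl α (w ++ [α (pl α w)])) (ql α (w ++ [α (pl α w)]))) K ≤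
            l ^ (min (min (pl α w) (ql α w)) K + 1) := pow_le_pow_right₀ hl (by omega)
        calc _ ≤ θ ^ sh α K w * l ^ (min (min (pl α w) (ql α w)) K + 1) := by gcongr
          _ = _ := by rw [pow_succ]; ring
      · positivity
    · intro a _ ha
      unfold pot
      rw [if_neg]
      intro h
      have h1 := le_pl h
      have h2 := ql_le h
      rw [← hc] at h2
      exact ha (le_antisymm h1 h2)
    · intro h; exact absurd (mem_univ _) h
  · -- branching
    have hone : ∀ a, pot α K l θ (w ++ [a]) ≤ θ ^ sh α K (w ++ [a]) := by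
      intro a
      unfold pot
      split_ifs with hwa
      · have hmin : min (min (pl α (w ++ [a])) (ql α (w ++ [a]))) K = 0 := by
          by_cases ha : a = α (pl α w)
          · have : ql α (w ++ [a]) = 0 := ql_break hα hwa (by rw [ha]; exact hc)
            omega
          · have : pl α (w ++ [a]) = 0 := pl_break hα hwa ha
            omega
        rw [hmin, pow_zero, mul_one]
      · positivity
    have hone' : ∀ a, pot α K l θ (w ++ [a]) ≤ θ ^ sh α K w := fun a =>
      (hone a).trans (pow_le_pow_of_le_one hθ.le hθ1 (sh_le_concat _ _ _ _))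
    by_cases hm : K ≤ min (pl α w) (ql α w)
    · rw [hpot, min_eq_right hm]
      calc ∑ a : Fin (M + 1), pot α K l θ (w ++ [a]) ≤ ∑ _a : Fin (M + 1), θ ^ sh α K w :=
            sum_le_sum fun a _ => hone' a
        _ = (M + 1 : ℝ) * θ ^ sh α K w := by simp
        _ ≤ l ^ K * θ ^ sh α K w := by gcongr
        _ = 1 * (θ ^ sh α K w * l ^ K) := by ring
        _ ≤ l * (θ ^ sh α K w * l ^ K) := by gcongr
    · -- shallow exits
      have hshal : ∃ c₀ : Fin (M + 1), ∀ a, a ≠ c₀ →
          pot α K l θ (w ++ [a]) ≤ θ ^ sh α K w * θ := by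
        have key : ∀ a, (La α (w ++ [a]) → pl α (w ++ [a]) ≤ K ∧ ql α (w ++ [a]) ≤ K) →
            pot α K l θ (w ++ [a]) ≤ θ ^ sh α K w * θ := by
          intro a ha
          by_cases hwa : La α (w ++ [a])
          · refine (hone a).trans (le_of_eq ?_)
            have h1 := st_length_le (ha hwa).1 (ha hwa).2
            rw [← pow_succ]
            congr 1
            unfold sh
            rw [cnt_concat, if_pos h1]
          · unfold pot
            rw [if_neg hwa]
            positivity
        rcases le_total (ql α w) (pl α w) with h | h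
        · refine ⟨α (pl α w), fun a ha => key a fun hwa => ?_⟩
          rw [min_eq_right h] at hm
          rw [pl_break hα hwa ha]
          exact ⟨Nat.zero_le _, (ql_concat_le α w a).trans (by omega)⟩
        · refine ⟨rf α (ql α w), fun a ha => key a fun hwa => ?_⟩
          rw [min_eq_left h] at hm
          rw [ql_break hα hwa ha]
          exact ⟨(pl_concat_le α w a).trans (by omega), Nat.zero_le _⟩
      obtain ⟨c₀, hc₀⟩ := hshal
      calc ∑ a : Fin (M + 1), pot α K l θ (w ++ [a])
          ≤ ∑ a : Fin (M + 1), θ ^ sh α K w * ((if a = c₀ then 1 else 0) + θ) := by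
            apply sum_le_sum
            intro a _
            by_cases ha : a = c₀
            · rw [if_pos ha]
              refine (hone' a).trans ?_
              have : 0 < θ ^ sh α K w := by positivity
              nlinarith
            · rw [if_neg ha, zero_add]
              exact hc₀ a ha
        _ = θ ^ sh α K w * (1 + (M + 1 : ℝ) * θ) := by
            rw [← mul_sum, sum_add_distrib]
            simp
        _ ≤ θ ^ sh α K w * l := by gcongr; linarith
        _ ≤ l * pot α K l θ w := by
            rw [hpot]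
            have h1 : (1 : ℝ) ≤ l ^ min (min (pl α w) (ql α w)) K := one_le_pow₀ hl
            have : 0 < θ ^ sh α K w := by positivity
            nlinarith [mul_pos this hl0]

theorem pot_sum {α : Sq M} (hα : α ∈ V α) {K : ℕ} {l θ : ℝ} (hl : 1 ≤ l) (hθ : 0 < θ)
    (hθ1 : θ ≤ 1) (hK : (M + 1 : ℝ) ≤ l ^ K) (hθl : (M + 1 : ℝ) * θ ≤ l - 1) (n : ℕ) :
    ∑ w ∈ wds M n, pot α K l θ w ≤ l ^ n := by
  induction n with
  | zero =>
    simp only [wds, sum_singleton, pow_zero]
    unfold pot
    split_ifs
    · have h1 : sh α K ([] : Wd M) = 0 := by simp [sh]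
      have h2 : pl α ([] : Wd M) = 0 := by
        have := (pl_suffix α ([] : Wd M)).length_le
        simpa using this
      rw [h1, h2]
      simp
    · norm_num
  | succ n ih =>
    rw [sum_wds_succ, pow_succ]
    calc ∑ w ∈ wds M n, ∑ a : Fin (M + 1), pot α K l θ (w ++ [a])
        ≤ ∑ w ∈ wds M n, l * pot α K l θ w :=
          sum_le_sum fun w _ => pot_step hα hl hθ hθ1 hK hθl w
      _ = l * ∑ w ∈ wds M n, pot α K l θ w := by rw [mul_sum]
      _ ≤ l * l ^ n := by gcongr
      _ = _ := by ring

open Classical in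
/-- **Few words avoid the shallow states.** -/
theorem deep {α : Sq M} (hα : α ∈ V α) {η : ℝ} (hη : 0 < η) :
    ∃ K : ℕ, ∃ δ : ℝ, 0 < δ ∧ ∀ n : ℕ,
      (((wds M n).filter (fun w => La α w ∧ (sh α K w : ℝ) < δ * n)).card : ℝ) ≤
        Real.exp (η * n) := by
  set l : ℝ := Real.exp (η / 2) with hl
  have hl1 : 1 < l := by rw [hl]; exact Real.one_lt_exp_iff.2 (by linarith)
  obtain ⟨K, hK⟩ := pow_unbounded_of_one_lt ((M : ℝ) + 1) hl1
  set θ : ℝ := min 1 ((l - 1) / (M + 1)) with hθ
  have hM : (0 : ℝ) < M + 1 := by positivity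
  have hθ0 : 0 < θ := lt_min one_pos (div_pos (by linarith) hM)
  have hθ1 : θ ≤ 1 := min_le_left _ _
  have hθl : ((M : ℝ) + 1) * θ ≤ l - 1 := by
    have : θ ≤ (l - 1) / (M + 1) := min_le_right _ _
    calc ((M : ℝ) + 1) * θ ≤ (M + 1) * ((l - 1) / (M + 1)) := by gcongr
      _ = l - 1 := by field_simp
  -- choose `δ` with `θ ^ (-δ) ≤ exp (η / 2)`
  set t : ℝ := - Real.log θ with ht
  have ht0 : 0 ≤ t := by rw [ht]; have := Real.log_nonpos hθ0.le hθ1; linarith
  set δ : ℝ := η / 2 / (t + 1) with hδ
  have hδ0 : 0 < δ := by positivity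
  refine ⟨K, δ, hδ0, fun n => ?_⟩
  have h1 := pot_sum hα hl1.le hθ0 hθ1 hK.le hθl n
  set S := (wds M n).filter (fun w => La α w ∧ (sh α K w : ℝ) < δ * n) with hS
  have h2 : ∀ w ∈ S, Real.exp (-(η / 2) * n) ≤ pot α K l θ w := by
    intro w hw
    rw [hS, mem_filter] at hw
    unfold pot
    rw [if_pos hw.2.1]
    have h3 : (1 : ℝ) ≤ l ^ min (min (pl α w) (ql α w)) K := one_le_pow₀ hl1.le
    have h4 : θ ^ sh α K w = Real.exp (-t * sh α K w) := by
      rw [ht, neg_neg, mul_comm, Real.exp_nat_mul, Real.exp_log hθ0]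
    have h5 : Real.exp (-(η / 2) * n) ≤ θ ^ sh α K w := by
      rw [h4]
      apply Real.exp_le_exp.2
      have h6 : t * sh α K w ≤ t * (δ * n) := by gcongr; exact hw.2.2.le
      have h7 : t * (δ * n) ≤ η / 2 * n := by
        have : t * δ ≤ η / 2 := by
          rw [hδ]
          calc t * (η / 2 / (t + 1)) = η / 2 * (t / (t + 1)) := by ring
            _ ≤ η / 2 * 1 := by
              gcongr
              rw [div_le_one (by linarith)]
              linarith
            _ = η / 2 := mul_one _
        calc t * (δ * n) = t * δ * n := by ring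
          _ ≤ η / 2 * n := by gcongr
      linarith
    calc Real.exp (-(η / 2) * n) ≤ θ ^ sh α K w := h5
      _ = θ ^ sh α K w * 1 := (mul_one _).symm
      _ ≤ _ := by gcongr
  have h3 : (S.card : ℝ) * Real.exp (-(η / 2) * n) ≤ l ^ n := by
    calc (S.card : ℝ) * Real.exp (-(η / 2) * n) = ∑ _w ∈ S, Real.exp (-(η / 2) * n) := by simp
      _ ≤ ∑ w ∈ S, pot α K l θ w := sum_le_sum h2
      _ ≤ ∑ w ∈ wds M n, pot α K l θ w := by
          apply sum_le_sum_of_subset_of_nonneg (filter_subset _ _)
          intro w _ _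
          exact pot_nonneg hl1.le hθ0 w
      _ ≤ l ^ n := h1
  have h4 : l ^ n = Real.exp (η / 2 * n) := by
    rw [hl, mul_comm, Real.exp_nat_mul]
  rw [h4] at h3
  have h5 : (S.card : ℝ) = (S.card : ℝ) * Real.exp (-(η / 2) * n) * Real.exp (η / 2 * n) := by
    rw [mul_assoc, ← Real.exp_add]
    simp
  rw [h5]
  calc (S.card : ℝ) * Real.exp (-(η / 2) * n) * Real.exp (η / 2 * n)
      ≤ Real.exp (η / 2 * n) * Real.exp (η / 2 * n) := by gcongr
    _ = Real.exp (η * n) := by rw [← Real.exp_add]; congr 1; ring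

end Pool.Agent.H284.EM
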