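import Pool.Agent.H284.EM.Kraft
import Pool.Agent.H284.EM.Branch3

/-! The main estimate. -/

set_option autoImplicit false

open Finset Filter Topology

namespace Pool.Agent.H284.EM

variable {M : ℕ}

/-- words of `X`, as beginnings of points -/
def LX (X : Set (Sq M)) (w : Wd M) : Prop := ∃ x, ap w x ∈ X

theorem LX.left {X : Set (Sq M)} {u v : Wd M} (h : LX X (u ++ v)) : LX X u := by
  obtain ⟨x, hx⟩ := h
  exact ⟨ap v x, by rwa [← ap_ap]⟩

theorem LX.right {X : Set (Sq M)} (hinv : ∀ x ∈ X, dr 1 x ∈ X) {u v : Wd M}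
    (h : LX X (u ++ v)) : LX X v := by
  obtain ⟨x, hx⟩ := h
  rw [ap_ap] at hx
  have := dr_mem hinv hx u.length
  rw [dr_ap] at this
  exact ⟨x, this⟩

theorem LX.infx {X : Set (Sq M)} (hinv : ∀ x ∈ X, dr 1 x ∈ X) {u w : Wd M}
    (h : LX X w) (hu : u <:+: w) : LX X u := by
  obtain ⟨s, t, rfl⟩ := hu
  exact (h.left).right hinv

/-- returns to a state -/
def Ret (α : Sq M) (u : Wd M) (r : ℕ) (d : Wd M) : Prop :=
  La α (u ++ d) ∧ st α (u ++ d) = u ∧ cnt (fun t => st α (u ++ t) = u) d = r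

theorem cnt_pos_of_last {P : Wd M → Prop} {x : Wd M} (hx : x ≠ []) (h : P x) : 0 < cnt P x := by
  rcases List.eq_nil_or_concat' x with rfl | ⟨y, a, rfl⟩
  · exact absurd rfl hx
  · rw [cnt_concat, if_pos h]; omega

theorem Ret.pc {α : Sq M} {u : Wd M} {r : ℕ} {d d' : Wd M} (h : Ret α u r d)
    (h' : Ret α u r d') (hp : d <+: d') : d = d' := by
  obtain ⟨x, rfl⟩ := hp
  have h1 := h'.2.2
  rw [cnt_append, h.2.2] at h1
  by_contra hne
  have hx : x ≠ [] := by
    rintro rfl
    simp at hne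
  have := cnt_pos_of_last (P := fun t => st α (u ++ (d ++ t)) = u) hx h'.2.1
  omega

theorem first_prefix (P : Wd M → Prop) {r : ℕ} (hr : 1 ≤ r) (w : Wd M) (h : r ≤ cnt P w) :
    ∃ d e', w = d ++ e' ∧ P d ∧ cnt P d = r := by
  induction w using List.reverseRecOn with
  | nil => simp at h; omega
  | append_singleton w a ih =>
    by_cases hw : r ≤ cnt P w
    · obtain ⟨d, e', h1, h2, h3⟩ := ih hw
      exact ⟨d, e' ++ [a], by rw [h1, List.append_assoc], h2, h3⟩
    · rw [cnt_concat] at h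
      by_cases hP : P (w ++ [a])
      · rw [if_pos hP] at h
        refine ⟨w ++ [a], [], by simp, hP, ?_⟩
        rw [cnt_concat, if_pos hP]
        omega
      · rw [if_neg hP] at h
        omega

theorem decomp {α : Sq M} {X : Set (Sq M)} (hinv : ∀ x ∈ X, dr 1 x ∈ X) {u : Wd M} {r : ℕ}
    (hr : 1 ≤ r) (n : ℕ) : ∀ (J : ℕ) (e : Wd M), e.length ≤ n → La α (u ++ e) → LX X e →
    r * J ≤ cnt (fun t => st α (u ++ t) = u) e →
    e ∈ catn (AL (fun d => Ret α u r d ∧ LX X d) n) J (AL (La α) n) := by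
  intro J
  induction J with
  | zero =>
    intro e he hl _ _
    exact mem_AL.2 ⟨he, hl.right⟩
  | succ J ih =>
    intro e he hl hX hc
    obtain ⟨d, e', rfl, h1, h2⟩ := first_prefix _ hr e (le_trans (by nlinarith) hc)
    rw [catn, mem_cat]
    have hlen : d.length + e'.length ≤ n := by simpa using he
    rw [← List.append_assoc] at hl
    refine ⟨d, mem_AL.2 ⟨by omega, ⟨hl.left, h1, h2⟩, hX.left⟩, e', ?_, rfl⟩
    apply ih e' (by omega) _ (hX.right hinv)
    · rw [cnt_append, h2] at hc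
      have h3 : cnt (fun t => st α (u ++ (d ++ t)) = u) e' =
          cnt (fun t => st α (u ++ t) = u) e' := by
        apply cnt_congr
        intro t
        rw [← List.append_assoc, st_append, h1]
      rw [h3, Nat.mul_succ] at hc
      omega
    · rwa [la_append_iff hl.left, h1] at hl

open Classical in
theorem est {α : Sq M} {X : Set (Sq M)} (hinv : ∀ x ∈ X, dr 1 x ∈ X) (hsub : X ⊆ V α)
    {u : Wd M} {r : ℕ} (hr : 1 ≤ r) {z κ : ℝ} (hz : 0 ≤ z)
    (hκ : ∀ D : Finset (Wd M), (∀ d ∈ D, Ret α u r d ∧ LX X d) → wt z D ≤ κ) (n J : ℕ) :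
    (((wds M n).filter (fun w => LX X w ∧ r * J + 1 ≤ cnt (fun t => st α t = u) w)).card : ℝ) *
      z ^ n ≤ wt z (AL (La α) n) ^ 2 * κ ^ J := by
  set S := (wds M n).filter (fun w => LX X w ∧ r * J + 1 ≤ cnt (fun t => st α t = u) w) with hS
  have h1 : (S.card : ℝ) * z ^ n = wt z S := by
    unfold wt
    rw [sum_congr rfl (g := fun _ => z ^ n)]
    · simp
    · intro w hw
      rw [hS, mem_filter, mem_wds] at hw
      rw [hw.1]
  set 𝓓 := AL (fun d => Ret α u r d ∧ LX X d) n with h𝓓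
  have h2 : S ⊆ cat (AL (La α) n) (catn 𝓓 J (AL (La α) n)) := by
    intro w hw
    rw [hS, mem_filter, mem_wds] at hw
    obtain ⟨hw1, hw2, hw3⟩ := hw
    obtain ⟨w0, e, rfl, h3, h4⟩ := first_prefix _ le_rfl w (le_trans (by omega) hw3)
    have hlen : w0.length + e.length = n := by simpa using hw1
    obtain ⟨x, hx⟩ := hw2
    have hla : La α (w0 ++ e) := ⟨x, hsub hx⟩
    rw [mem_cat]
    refine ⟨w0, mem_AL.2 ⟨by omega, hla.left⟩, e, ?_, rfl⟩
    apply decomp hinv hr n J e (by omega)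
    · rwa [la_append_iff hla.left, h3] at hla
    · exact LX.right hinv ⟨x, hx⟩
    · rw [cnt_append, h4] at hw3
      have h5 : cnt (fun t => st α (w0 ++ t) = u) e = cnt (fun t => st α (u ++ t) = u) e := by
        apply cnt_congr
        intro t
        rw [st_append, h3]
      rw [h5] at hw3
      omega
  have h3 : wt z 𝓓 ≤ κ := hκ 𝓓 fun d hd => (mem_AL.1 hd).2
  have h4 := wt_nonneg hz (AL (La α) n)
  have h5 := wt_nonneg hz 𝓓
  rw [h1]
  calc wt z S ≤ wt z (cat (AL (La α) n) (catn 𝓓 J (AL (La α) n))) := wt_mono hz h2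
    _ ≤ wt z (AL (La α) n) * wt z (catn 𝓓 J (AL (La α) n)) := wt_cat_le hz _ _
    _ ≤ wt z (AL (La α) n) * (wt z 𝓓 ^ J * wt z (AL (La α) n)) := by
        gcongr; exact wt_catn_le hz _ _ _
    _ ≤ wt z (AL (La α) n) * (κ ^ J * wt z (AL (La α) n)) := by gcongr
    _ = _ := by ring

/-- the loss at a state -/
theorem loss {α : Sq M} (hα : α ∈ V α) (hnd : (α 0).rev ≠ α 0) (htr : Tr α) {h : ℝ}
    (hh : 0 < h) (hN : ∀ n, 0 < num (La α) n)
    (hlim : Tendsto (fun n : ℕ => Real.log (num (La α) n) / n) atTop (𝓝 h))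
    {X : Set (Sq M)} (hinv : ∀ x ∈ X, dr 1 x ∈ X) {w0 : Wd M} (hw0 : La α w0)
    (hw0' : ¬ LX X w0) (u : Wd M) :
    ∃ r : ℕ, 1 ≤ r ∧ ∃ κ : ℝ, 0 < κ ∧ κ < 1 ∧
      ∀ D : Finset (Wd M), (∀ d ∈ D, Ret α u r d ∧ LX X d) → wt (Real.exp (-h)) D ≤ κ := by
  have hz1 : Real.exp (-h) < 1 := by
    rw [← Real.exp_zero]; exact Real.exp_lt_exp.2 (by linarith)
  have hz0 : 0 < Real.exp (-h) := Real.exp_pos _
  by_cases hT : ∃ e f, Loop α u e ∧ Loop α u f ∧ WLt e f
  · obtain ⟨e, f, he, hf, hef⟩ := hT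
    obtain ⟨g, hg, hgw⟩ := loop_through hα hnd htr he hf hef hw0
    set r := cnt (fun t => st α (u ++ t) = u) g with hr
    have hr1 : 1 ≤ r := cnt_pos_of_last (P := fun t => st α (u ++ t) = u) hg.1 hg.2.2
    have hgr : Ret α u r g := ⟨hg.2.1, hg.2.2, rfl⟩
    refine ⟨r, hr1, max (1 / 2) (1 - Real.exp (-h) ^ g.length), ?_, ?_, ?_⟩
    · exact lt_max_of_lt_left (by norm_num)
    · have : 0 < Real.exp (-h) ^ g.length := by positivity
      exact max_lt (by norm_num) (by linarith)
    · intro D hD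
      refine le_max_of_le_right ?_
      have hgD : g ∉ D := fun hgD => hw0' ((hD g hgD).2.infx hinv hgw)
      have hloop : ∀ d ∈ insert g D, Ret α u r d := by
        intro d hd
        rcases mem_insert.1 hd with rfl | hd
        · exact hgr
        · exact (hD d hd).1
      have hk := kraft hN hlim (u := u) (D := insert g D)
        (fun d hd => by
          have := hloop d hd
          refine ⟨?_, this.1, this.2.1⟩
          rintro rfl
          have h3 := this.2.2
          rw [cnt_nil] at h3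
          omega)
        (fun d hd d' hd' hp => (hloop d hd).pc (hloop d' hd') hp) hg.2.1.left
      unfold wt at hk ⊢
      rw [sum_insert hgD] at hk
      linarith
  · refine ⟨1, le_rfl, Real.exp (-h), hz0, hz1, ?_⟩
    intro D hD
    have hne : ∀ d ∈ D, d ≠ [] := by
      rintro d hd rfl
      have h3 := (hD _ hd).1.2.2
      rw [cnt_nil] at h3
      omega
    have hloop : ∀ d ∈ D, Loop α u d := fun d hd =>
      ⟨hne d hd, (hD d hd).1.1, (hD d hd).1.2.1⟩
    have hcard : D.card ≤ 1 := by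
      rw [card_le_one]
      intro a ha b hb
      by_contra hab
      have h1 : ¬ a <+: b := fun h => hab ((hD a ha).1.pc (hD b hb).1 h)
      have h2 : ¬ b <+: a := fun h => hab ((hD b hb).1.pc (hD a ha).1 h).symm
      rcases wlt_or h1 h2 with h3 | h3
      · exact hT ⟨a, b, hloop a ha, hloop b hb, h3⟩
      · exact hT ⟨b, a, hloop b hb, hloop a ha, h3⟩
    unfold wt
    calc ∑ w ∈ D, Real.exp (-h) ^ w.length ≤ ∑ _w ∈ D, Real.exp (-h) := by
          apply sum_le_sum
          intro w hw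
          have : 1 ≤ w.length := List.length_pos_iff.2 (hne w hw)
          calc Real.exp (-h) ^ w.length ≤ Real.exp (-h) ^ 1 :=
                pow_le_pow_of_le_one hz0.le hz1.le this
            _ = _ := pow_one _
      _ = (D.card : ℝ) * Real.exp (-h) := by simp
      _ ≤ 1 * Real.exp (-h) := by gcongr; exact_mod_cast hcard
      _ = _ := one_mul _

/-- exponential growth rate strictly below `h` -/
def ES (h : ℝ) (f : ℕ → ℝ) : Prop :=
  ∃ ρ : ℝ, ρ < h ∧ ∃ C : ℝ, 0 < C ∧ ∀ n : ℕ, f n ≤ C * Real.exp (ρ * n)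

theorem ES.add {h : ℝ} {f g : ℕ → ℝ} (hf : ES h f) (hg : ES h g) : ES h (fun n => f n + g n) := by
  obtain ⟨ρ, h1, C, h2, h3⟩ := hf
  obtain ⟨ρ', h1', C', h2', h3'⟩ := hg
  refine ⟨max ρ ρ', max_lt h1 h1', C + C', by positivity, fun n => ?_⟩
  have h4 : Real.exp (ρ * n) ≤ Real.exp (max ρ ρ' * n) := by
    apply Real.exp_le_exp.2
    gcongr
    exact le_max_left _ _
  have h5 : Real.exp (ρ' * n) ≤ Real.exp (max ρ ρ' * n) := by
    apply Real.exp_le_exp.2
    gcongr
    exact le_max_right _ _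
  calc f n + g n ≤ C * Real.exp (ρ * n) + C' * Real.exp (ρ' * n) := add_le_add (h3 n) (h3' n)
    _ ≤ C * Real.exp (max ρ ρ' * n) + C' * Real.exp (max ρ ρ' * n) := by gcongr
    _ = _ := by ring

theorem ES.mono {h : ℝ} {f g : ℕ → ℝ} (hf : ES h f) (hg : ∀ n, g n ≤ f n) : ES h g := by
  obtain ⟨ρ, h1, C, h2, h3⟩ := hf
  exact ⟨ρ, h1, C, h2, fun n => (hg n).trans (h3 n)⟩

theorem ES.sum {ι : Type} {h : ℝ} {f : ι → ℕ → ℝ} (s : Finset ι) (hf : ∀ i ∈ s, ES h (f i)) :
    ES h (fun n => ∑ i ∈ s, f i n) := by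
  classical
  induction s using Finset.induction_on with
  | empty =>
    refine ⟨h - 1, by linarith, 1, one_pos, fun n => ?_⟩
    simp only [sum_empty]
    positivity
  | insert a s ha ih =>
    have h1 := (hf a (mem_insert_self _ _)).add (ih fun i hi => hf i (mem_insert_of_mem hi))
    refine h1.mono fun n => ?_
    rw [sum_insert ha]

open Classical in
theorem many_visits {α : Sq M} (hα : α ∈ V α) (hnd : (α 0).rev ≠ α 0) (htr : Tr α) {h : ℝ}
    (hh : 0 < h) (hN : ∀ n, 0 < num (La α) n)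
    (hlim : Tendsto (fun n : ℕ => Real.log (num (La α) n) / n) atTop (𝓝 h))
    {X : Set (Sq M)} (hinv : ∀ x ∈ X, dr 1 x ∈ X) (hsub : X ⊆ V α) {w0 : Wd M} (hw0 : La α w0)
    (hw0' : ¬ LX X w0) (u : Wd M) {β : ℝ} (hβ : 0 < β) :
    ES h (fun n : ℕ => (((wds M n).filter
      (fun w => LX X w ∧ β * n ≤ (cnt (fun t => st α t = u) w : ℝ))).card : ℝ)) := by
  obtain ⟨r, hr, κ, hκ0, hκ1, hκ⟩ := loss hα hnd htr hh hN hlim hinv hw0 hw0' u
  have hr0 : (0 : ℝ) < r := by exact_mod_cast hr
  have hlog : Real.log κ < 0 := Real.log_neg hκ0 hκ1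
  set ε : ℝ := -(β / r) * Real.log κ / 4 with hε
  have hε0 : 0 < ε := by
    have : 0 < β / r := by positivity
    rw [hε]; nlinarith
  obtain ⟨C, hC, hb⟩ := wt_AL_growth hN hlim hε0
  refine ⟨h - 2 * ε, by linarith, C ^ 2 * Real.exp (-2 * Real.log κ) + 1, by positivity,
    fun n => ?_⟩
  rcases Nat.eq_zero_or_pos n with rfl | hn
  · have h1 : (((wds M 0).filter
      (fun w => LX X w ∧ β * (0 : ℕ) ≤ (cnt (fun t => st α t = u) w : ℝ))).card : ℝ) ≤ 1 := by
      have : ((wds M 0).filter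
        (fun w => LX X w ∧ β * (0 : ℕ) ≤ (cnt (fun t => st α t = u) w : ℝ))).card ≤ 1 :=
        (card_filter_le _ _).trans (by simp [wds])
      exact_mod_cast this
    refine h1.trans ?_
    have : 0 ≤ C ^ 2 * Real.exp (-2 * Real.log κ) := by positivity
    simp only [Nat.cast_zero, mul_zero, Real.exp_zero, mul_one]
    linarith
  · set J := ⌊β * n / r⌋₊ - 1 with hJ
    have hn' : (0 : ℝ) < n := by exact_mod_cast hn
    have hsubS : (wds M n).filter
        (fun w => LX X w ∧ β * n ≤ (cnt (fun t => st α t = u) w : ℝ)) ⊆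
        (wds M n).filter (fun w => LX X w ∧ r * J + 1 ≤ cnt (fun t => st α t = u) w) := by
      intro w hw
      rw [mem_filter] at hw ⊢
      refine ⟨hw.1, hw.2.1, ?_⟩
      have h1 : 0 < β * n := by positivity
      have h2 : (0 : ℝ) < (cnt (fun t => st α t = u) w : ℝ) := h1.trans_le hw.2.2
      have h3 : 0 < cnt (fun t => st α t = u) w := by exact_mod_cast h2
      rcases Nat.eq_zero_or_pos ⌊β * n / r⌋₊ with h4 | h4
      · have h5 : J = 0 := by rw [hJ, h4]
        rw [h5, Nat.mul_zero]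
        exact h3
      · have h5 : (⌊β * n / r⌋₊ : ℝ) ≤ β * n / r := Nat.floor_le (by positivity)
        rw [le_div_iff₀ hr0] at h5
        have h6 : (((J + 1) * r : ℕ) : ℝ) ≤ (cnt (fun t => st α t = u) w : ℝ) := by
          rw [show J + 1 = ⌊β * n / r⌋₊ by omega]
          push_cast
          exact h5.trans hw.2.2
        have h7 : (J + 1) * r ≤ cnt (fun t => st α t = u) w := by exact_mod_cast h6
        nlinarith
    have h1 := est hinv hsub hr (Real.exp_pos (-h)).le hκ n J
    have h2 : κ ^ J ≤ Real.exp (-2 * Real.log κ) * Real.exp (-(4 * ε) * n) := by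
      have h3 : κ ^ J = Real.exp (Real.log κ * J) := by
        rw [mul_comm, Real.exp_nat_mul, Real.exp_log hκ0]
      rw [h3, ← Real.exp_add]
      apply Real.exp_le_exp.2
      have h4 : β * n / r - 2 ≤ (J : ℝ) := by
        have h5 := Nat.lt_floor_add_one (β * n / r)
        have h6 : (⌊β * n / r⌋₊ : ℝ) ≤ (J : ℝ) + 1 := by
          exact_mod_cast (by omega : ⌊β * n / r⌋₊ ≤ J + 1)
        linarith
      have h5 : Real.log κ * J ≤ Real.log κ * (β * n / r - 2) :=
        mul_le_mul_of_nonpos_left h4 hlog.le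
      refine h5.trans (le_of_eq ?_)
      rw [hε]
      ring
    have h3 : wt (Real.exp (-h)) (AL (La α) n) ^ 2 ≤ C ^ 2 * Real.exp (2 * ε * n) := by
      have h4 := wt_nonneg (Real.exp_pos (-h)).le (AL (La α) n)
      calc wt (Real.exp (-h)) (AL (La α) n) ^ 2 ≤ (C * Real.exp (ε * n)) ^ 2 := by
            gcongr; exact hb n
        _ = _ := by
            rw [mul_pow, ← Real.exp_nat_mul]
            congr 2
            push_cast
            ring
    have h4 : (((wds M n).filter
        (fun w => LX X w ∧ β * n ≤ (cnt (fun t => st α t = u) w : ℝ))).card : ℝ) ≤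
        (((wds M n).filter
          (fun w => LX X w ∧ r * J + 1 ≤ cnt (fun t => st α t = u) w)).card : ℝ) := by
      exact_mod_cast card_le_card hsubS
    have h5 : Real.exp (-h) ^ n = Real.exp (-(h * n)) := by
      rw [← Real.exp_nat_mul]; congr 1; ring
    rw [h5] at h1
    refine h4.trans ?_
    set c : ℝ := (((wds M n).filter
      (fun w => LX X w ∧ r * J + 1 ≤ cnt (fun t => st α t = u) w)).card : ℝ) with hc
    calc c = c * Real.exp (-(h * n)) * Real.exp (h * n) := by
          rw [mul_assoc, ← Real.exp_add]; simp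
      _ ≤ wt (Real.exp (-h)) (AL (La α) n) ^ 2 * κ ^ J * Real.exp (h * n) := by gcongr
      _ ≤ C ^ 2 * Real.exp (2 * ε * n) *
            (Real.exp (-2 * Real.log κ) * Real.exp (-(4 * ε) * n)) * Real.exp (h * n) := by
          gcongr
      _ = C ^ 2 * Real.exp (-2 * Real.log κ) * Real.exp ((h - 2 * ε) * n) := by
          have h6 : Real.exp ((h - 2 * ε) * n) =
              Real.exp (2 * ε * n) * Real.exp (-(4 * ε) * n) * Real.exp (h * n) := by
            rw [← Real.exp_add, ← Real.exp_add]; congr 1; ring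
          rw [h6]; ring
      _ ≤ _ := by
          have : 0 < Real.exp ((h - 2 * ε) * n) := Real.exp_pos _
          nlinarith

/-- shallow states -/
def shallow (α : Sq M) (K : ℕ) : Finset (Wd M) :=
  (range (K + 1)).image (fun i => tk i α) ∪ (range (K + 1)).image (fun i => tk i (rf α))

theorem st_mem_shallow {α : Sq M} {K : ℕ} {w : Wd M} (h : (st α w).length ≤ K) :
    st α w ∈ shallow α K := by
  unfold shallow
  rw [mem_union, mem_image, mem_image]
  rcases st_mem α w with hp | hq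
  · left
    exact ⟨(st α w).length, by simp; omega, (pp_tk hp).symm⟩
  · right
    exact ⟨(st α w).length, by simp; omega, (qq_tk hq).symm⟩

theorem sh_le_sum (α : Sq M) (K : ℕ) (w : Wd M) :
    sh α K w ≤ ∑ u ∈ shallow α K, cnt (fun t => st α t = u) w := by
  classical
  unfold sh
  induction w using List.reverseRecOn with
  | nil => simp
  | append_singleton w a ih =>
    have h1 : ∀ u, cnt (fun t => st α t = u) (w ++ [a]) =
        cnt (fun t => st α t = u) w + if st α (w ++ [a]) = u then 1 else 0 := fun u => by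
      rw [cnt_concat]; congr
    simp only [h1, sum_add_distrib]
    rw [cnt_concat]
    refine add_le_add ih ?_
    split_ifs with h
    · rw [sum_ite_eq, if_pos (st_mem_shallow h)]
    · exact Nat.zero_le _

/-- **Main estimate.** -/
theorem main_estimate {α : Sq M} (hα : α ∈ V α) (hnd : (α 0).rev ≠ α 0) (htr : Tr α) {h : ℝ}
    (hh : 0 < h) (hN : ∀ n, 0 < num (La α) n)
    (hlim : Tendsto (fun n : ℕ => Real.log (num (La α) n) / n) atTop (𝓝 h))
    {X : Set (Sq M)} (hinv : ∀ x ∈ X, dr 1 x ∈ X) (hsub : X ⊆ V α) {w0 : Wd M} (hw0 : La α w0)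
    (hw0' : ¬ LX X w0) : ES h (fun n => (num (LX X) n : ℝ)) := by
  classical
  obtain ⟨K, δ, hδ, hdeep⟩ := deep hα (half_pos hh)
  set U := shallow α K with hU
  have hUne : U.Nonempty := ⟨tk 0 α, by
    rw [hU, shallow, mem_union, mem_image]
    exact Or.inl ⟨0, by simp, rfl⟩⟩
  have hUc : (0 : ℝ) < U.card := by exact_mod_cast hUne.card_pos
  set β : ℝ := δ / U.card with hβ
  have hβ0 : 0 < β := by positivity
  have h1 : ES h (fun n : ℕ => (((wds M n).filter
      (fun w => La α w ∧ (sh α K w : ℝ) < δ * n)).card : ℝ)) := by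
    refine ⟨h / 2, by linarith, 1, one_pos, fun n => ?_⟩
    rw [one_mul]
    exact hdeep n
  have h2 : ES h (fun n : ℕ => ∑ u ∈ U, (((wds M n).filter
      (fun w => LX X w ∧ β * n ≤ (cnt (fun t => st α t = u) w : ℝ))).card : ℝ)) :=
    ES.sum U fun u _ => many_visits hα hnd htr hh hN hlim hinv hsub hw0 hw0' u hβ0
  refine (h1.add h2).mono fun n => ?_
  have hcov : (wds M n).filter (LX X) ⊆
      (wds M n).filter (fun w => La α w ∧ (sh α K w : ℝ) < δ * n) ∪
      U.biUnion (fun u => (wds M n).filter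
        (fun w => LX X w ∧ β * n ≤ (cnt (fun t => st α t = u) w : ℝ))) := by
    intro w hw
    rw [mem_filter] at hw
    obtain ⟨hw1, hw2⟩ := hw
    have hla : La α w := by
      obtain ⟨x, hx⟩ := hw2
      exact ⟨x, hsub hx⟩
    rw [mem_union]
    by_cases hs : (sh α K w : ℝ) < δ * n
    · left
      rw [mem_filter]
      exact ⟨hw1, hla, hs⟩
    · right
      rw [mem_biUnion]
      by_contra hc
      push Not at hc
      apply hs
      have h3 : ∀ u ∈ U, (cnt (fun t => st α t = u) w : ℝ) < β * n := by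
        intro u hu
        by_contra h4
        push Not at h4
        exact hc u hu (mem_filter.2 ⟨hw1, hw2, h4⟩)
      calc (sh α K w : ℝ) ≤ ((∑ u ∈ U, cnt (fun t => st α t = u) w : ℕ) : ℝ) := by
            exact_mod_cast sh_le_sum α K w
        _ = ∑ u ∈ U, (cnt (fun t => st α t = u) w : ℝ) := by push_cast; rfl
        _ < ∑ _u ∈ U, β * n := sum_lt_sum_of_nonempty hUne h3
        _ = δ * n := by
            rw [sum_const, nsmul_eq_mul, hβ]
            field_simp
  have h3 : ((wds M n).filter (LX X)).card ≤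
      ((wds M n).filter (fun w => La α w ∧ (sh α K w : ℝ) < δ * n)).card +
      ∑ u ∈ U, ((wds M n).filter
        (fun w => LX X w ∧ β * n ≤ (cnt (fun t => st α t = u) w : ℝ))).card :=
    (card_le_card hcov).trans ((card_union_le _ _).trans (Nat.add_le_add_left card_biUnion_le _))
  have h4 : (num (LX X) n : ℝ) = (((wds M n).filter (LX X)).card : ℝ) := by
    unfold num; congr
  rw [h4]
  exact_mod_cast h3

end Pool.Agent.H284.EM
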