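import Pool.Agent.H284.EM.Deep

/-! Prefix codes of loops and Kraft's inequality. -/

set_option autoImplicit false

open Finset Filter Topology

namespace Pool.Agent.H284.EM

variable {M : ℕ}

/-- weight of a finite set of words -/
def wt (z : ℝ) (F : Finset (Wd M)) : ℝ := ∑ w ∈ F, z ^ w.length

/-- concatenation -/
def cat (F G : Finset (Wd M)) : Finset (Wd M) := (F ×ˢ G).image (fun p => p.1 ++ p.2)

theorem mem_cat {F G : Finset (Wd M)} {w : Wd M} :
    w ∈ cat F G ↔ ∃ a ∈ F, ∃ b ∈ G, a ++ b = w := by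
  simp only [cat, mem_image, mem_product, Prod.exists]
  constructor
  · rintro ⟨a, b, ⟨h1, h2⟩, h3⟩
    exact ⟨a, h1, b, h2, h3⟩
  · rintro ⟨a, h1, b, h2, h3⟩
    exact ⟨a, b, ⟨h1, h2⟩, h3⟩

theorem wt_nonneg {z : ℝ} (hz : 0 ≤ z) (F : Finset (Wd M)) : 0 ≤ wt z F :=
  sum_nonneg fun _ _ => pow_nonneg hz _

theorem wt_mono {z : ℝ} (hz : 0 ≤ z) {F G : Finset (Wd M)} (h : F ⊆ G) : wt z F ≤ wt z G :=
  sum_le_sum_of_subset_of_nonneg h fun _ _ _ => pow_nonneg hz _

theorem wt_prod (z : ℝ) (F G : Finset (Wd M)) :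
    ∑ p ∈ F ×ˢ G, z ^ (p.1 ++ p.2).length = wt z F * wt z G := by
  rw [sum_product, wt, wt, sum_mul_sum]
  apply sum_congr rfl
  intro a _
  apply sum_congr rfl
  intro b _
  rw [List.length_append, pow_add]

theorem wt_cat_le {z : ℝ} (hz : 0 ≤ z) (F G : Finset (Wd M)) :
    wt z (cat F G) ≤ wt z F * wt z G := by
  rw [← wt_prod]
  unfold wt cat
  exact sum_image_le_of_nonneg (f := fun w : Wd M => z ^ w.length) (fun _ _ => pow_nonneg hz _)

/-- prefix codes -/
def PC (F : Finset (Wd M)) : Prop := ∀ d ∈ F, ∀ d' ∈ F, d <+: d' → d = d'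

theorem wt_cat_eq {z : ℝ} {F : Finset (Wd M)} (hF : PC F) (G : Finset (Wd M)) :
    wt z (cat F G) = wt z F * wt z G := by
  rw [← wt_prod]
  unfold wt cat
  rw [sum_image]
  rintro ⟨a, b⟩ h ⟨a', b'⟩ h' he
  simp only [coe_product, Set.mem_prod, mem_coe] at h h' he
  have haa : a = a' := by
    rcases List.append_eq_append_iff.1 he with ⟨x, h1, _⟩ | ⟨x, h1, _⟩
    · exact hF a h.1 a' h'.1 ⟨x, h1.symm⟩
    · exact (hF a' h'.1 a h.1 ⟨x, h1.symm⟩).symm
  subst haa
  rw [List.append_cancel_left he]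

/-- iterated concatenation -/
def catn (F : Finset (Wd M)) : ℕ → Finset (Wd M) → Finset (Wd M)
  | 0, G => G
  | J + 1, G => cat F (catn F J G)

theorem wt_catn_eq {z : ℝ} {F : Finset (Wd M)} (hF : PC F) (J : ℕ) (G : Finset (Wd M)) :
    wt z (catn F J G) = wt z F ^ J * wt z G := by
  induction J with
  | zero => simp [catn]
  | succ J ih => rw [catn, wt_cat_eq hF, ih, pow_succ]; ring

theorem wt_catn_le {z : ℝ} (hz : 0 ≤ z) (F : Finset (Wd M)) (J : ℕ) (G : Finset (Wd M)) :
    wt z (catn F J G) ≤ wt z F ^ J * wt z G := by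
  induction J with
  | zero => simp [catn]
  | succ J ih =>
    rw [catn, pow_succ]
    calc _ ≤ wt z F * wt z (catn F J G) := wt_cat_le hz _ _
      _ ≤ wt z F * (wt z F ^ J * wt z G) := by
        have := wt_nonneg hz F
        gcongr
      _ = _ := by ring

/-- words of length at most `n` -/
def upto (M n : ℕ) : Finset (Wd M) := (range (n + 1)).biUnion (wds M)

theorem mem_upto {n : ℕ} {w : Wd M} : w ∈ upto M n ↔ w.length ≤ n := by
  simp [upto, mem_wds]

open Classical in
/-- number of words of length `n` with a property -/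
noncomputable def num (L : Wd M → Prop) (n : ℕ) : ℕ := ((wds M n).filter L).card

open Classical in
/-- words of length at most `n` with a property -/
noncomputable def AL (L : Wd M → Prop) (n : ℕ) : Finset (Wd M) := (upto M n).filter L

theorem mem_AL {L : Wd M → Prop} {n : ℕ} {w : Wd M} : w ∈ AL L n ↔ w.length ≤ n ∧ L w := by
  classical
  simp [AL, mem_upto]

theorem wt_AL (z : ℝ) (L : Wd M → Prop) (n : ℕ) :
    wt z (AL L n) = ∑ i ∈ range (n + 1), (num L i : ℝ) * z ^ i := by
  classical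
  unfold wt AL upto
  rw [filter_biUnion, sum_biUnion]
  · apply sum_congr rfl
    intro i _
    rw [num]
    rw [sum_congr rfl (g := fun _ => z ^ i)]
    · rw [sum_const, nsmul_eq_mul]
    · intro w hw
      rw [mem_filter, mem_wds] at hw
      rw [hw.1]
  · intro i _ j _ hij
    simp only [Function.onFun]
    rw [disjoint_left]
    intro w h1 h2
    rw [mem_filter, mem_wds] at h1 h2
    exact hij (h1.1.symm.trans h2.1)

/-- growth from a limit -/
theorem growth {N : ℕ → ℝ} (hN : ∀ n, 0 < N n) {h : ℝ}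
    (hlim : Tendsto (fun n : ℕ => Real.log (N n) / n) atTop (𝓝 h)) {ε : ℝ} (hε : 0 < ε) :
    ∃ C : ℝ, 0 < C ∧ ∀ n : ℕ, N n ≤ C * Real.exp ((h + ε) * n) := by
  have h1 : ∀ᶠ n : ℕ in atTop, Real.log (N n) / n < h + ε :=
    hlim.eventually (gt_mem_nhds (by linarith))
  obtain ⟨n0, hn0⟩ := eventually_atTop.1 h1
  set C : ℝ := 1 + ∑ i ∈ range (n0 + 1), N i * Real.exp (-((h + ε) * i)) with hC
  have hs : 0 ≤ ∑ i ∈ range (n0 + 1), N i * Real.exp (-((h + ε) * i)) :=
    sum_nonneg fun i _ => mul_nonneg (hN i).le (Real.exp_pos _).le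
  refine ⟨C, by linarith, fun n => ?_⟩
  rcases lt_or_ge n (n0 + 1) with hn | hn
  · have h2 : N n * Real.exp (-((h + ε) * n)) ≤ C := by
      have := single_le_sum (f := fun i : ℕ => N i * Real.exp (-((h + ε) * i)))
        (fun i _ => mul_nonneg (hN i).le (Real.exp_pos _).le) (mem_range.2 hn)
      have this' : N n * Real.exp (-((h + ε) * n)) ≤
        ∑ i ∈ range (n0 + 1), N i * Real.exp (-((h + ε) * i)) := this
      linarith
    calc N n = N n * Real.exp (-((h + ε) * n)) * Real.exp ((h + ε) * n) := by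
          rw [mul_assoc, ← Real.exp_add]; simp
      _ ≤ _ := by gcongr
  · have h2 := hn0 n (by omega)
    have hn' : (0 : ℝ) < n := by exact_mod_cast (by omega : 0 < n)
    rw [div_lt_iff₀ hn'] at h2
    have h3 : N n ≤ Real.exp ((h + ε) * n) := by
      rw [← Real.exp_log (hN n)]
      exact Real.exp_le_exp.2 h2.le
    have h4 : (1 : ℝ) ≤ C := by linarith
    calc N n ≤ 1 * Real.exp ((h + ε) * n) := by rw [one_mul]; exact h3
      _ ≤ _ := by gcongr

theorem wt_AL_growth {L : Wd M → Prop} {h : ℝ} (hN : ∀ n, 0 < num L n)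
    (hlim : Tendsto (fun n : ℕ => Real.log (num L n) / n) atTop (𝓝 h)) {ε : ℝ} (hε : 0 < ε) :
    ∃ C : ℝ, 0 < C ∧ ∀ n : ℕ, wt (Real.exp (-h)) (AL L n) ≤ C * Real.exp (ε * n) := by
  obtain ⟨C, hC, hb⟩ := growth (N := fun n => (num L n : ℝ)) (fun n => by exact_mod_cast hN n)
    hlim (half_pos hε)
  refine ⟨C * (2 / ε + 1), by positivity, fun n => ?_⟩
  rw [wt_AL]
  calc ∑ i ∈ range (n + 1), (num L i : ℝ) * Real.exp (-h) ^ i
      ≤ ∑ i ∈ range (n + 1), C * Real.exp (ε / 2 * n) := by
        apply sum_le_sum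
        intro i hi
        have hi' : (i : ℝ) ≤ n := by
          have := mem_range.1 hi
          exact_mod_cast (by omega : i ≤ n)
        have h1 : Real.exp (-h) ^ i = Real.exp (-h * i) := by
          rw [← Real.exp_nat_mul]; congr 1; ring
        rw [h1]
        calc (num L i : ℝ) * Real.exp (-h * i)
            ≤ C * Real.exp ((h + ε / 2) * i) * Real.exp (-h * i) := by gcongr; exact hb i
          _ = C * Real.exp (ε / 2 * i) := by
              rw [mul_assoc, ← Real.exp_add]; congr 2; ring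
          _ ≤ _ := by gcongr
    _ = C * ((n + 1) * Real.exp (ε / 2 * n)) := by simp; ring
    _ ≤ C * ((2 / ε + 1) * Real.exp (ε / 2 * n) * Real.exp (ε / 2 * n)) := by
        gcongr
        have h2 := Real.add_one_le_exp (ε / 2 * n)
        have h3 : (n : ℝ) + 1 ≤ (2 / ε + 1) * (ε / 2 * n + 1) := by
          have h4 : (2 / ε + 1) * (ε / 2 * n + 1) = n + 2 / ε + ε / 2 * n + 1 := by
            field_simp
            ring
          rw [h4]
          have : 0 ≤ 2 / ε + ε / 2 * n := by positivity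
          linarith
        refine h3.trans ?_
        gcongr
    _ = C * (2 / ε + 1) * Real.exp (ε * n) := by
        rw [mul_assoc, ← Real.exp_add, ← mul_assoc]; congr 2; ring

/-- **Kraft's inequality.** -/
theorem kraft {α : Sq M} {h : ℝ} (hN : ∀ n, 0 < num (La α) n)
    (hlim : Tendsto (fun n : ℕ => Real.log (num (La α) n) / n) atTop (𝓝 h)) {u : Wd M}
    {D : Finset (Wd M)} (hD : ∀ d ∈ D, Loop α u d) (hpc : PC D) (hu : La α u) :
    wt (Real.exp (-h)) D ≤ 1 := by
  by_contra hc
  push Not at hc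
  set z := Real.exp (-h) with hz
  set S := wt z D with hS
  obtain ⟨L, hL⟩ : ∃ L : ℕ, ∀ d ∈ D, d.length ≤ L := ⟨D.sup List.length, fun d hd => le_sup (f := List.length) hd⟩
  have hE : ∀ J, catn D J {[]} ⊆ AL (La α) (J * L) := by
    intro J
    have hE1 : ∀ w ∈ catn D J {[]}, w.length ≤ J * L ∧ La α (u ++ w) ∧ (w = [] ∨ Loop α u w) := by
      induction J with
      | zero =>
        intro w hw
        simp only [catn, mem_singleton] at hw
        subst hw
        simpa using hu
      | succ J ih =>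
        intro w hw
        rw [catn, mem_cat] at hw
        obtain ⟨d, hd, v, hv, rfl⟩ := hw
        obtain ⟨h1, _, h2⟩ := ih v hv
        have hlp : Loop α u (d ++ v) := by
          rcases h2 with rfl | h2
          · simpa using hD d hd
          · exact (hD d hd).append h2
        refine ⟨?_, hlp.2.1, Or.inr hlp⟩
        rw [List.length_append, Nat.succ_mul]
        have := hL d hd
        omega
    intro w hw
    obtain ⟨h1, h2, _⟩ := hE1 w hw
    exact mem_AL.2 ⟨h1, h2.right⟩
  have hz0 : 0 ≤ z := (Real.exp_pos _).le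
  have hlogS : 0 < Real.log S := Real.log_pos hc
  set ε : ℝ := Real.log S / (2 * (L + 1)) with hε
  have hε0 : 0 < ε := by positivity
  obtain ⟨C, hC, hb⟩ := wt_AL_growth hN hlim hε0
  have h1 : ∀ J : ℕ, S ^ J ≤ C * Real.exp (Real.log S / 2) ^ J := by
    intro J
    have h2 := wt_catn_eq (z := z) hpc J {[]}
    have h3 : wt z ({[]} : Finset (Wd M)) = 1 := by simp [wt]
    rw [h3, mul_one] at h2
    rw [← h2]
    refine (wt_mono hz0 (hE J)).trans ((hb _).trans ?_)
    rw [← Real.exp_nat_mul]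
    apply mul_le_mul_of_nonneg_left _ hC.le
    apply Real.exp_le_exp.2
    push_cast
    have h4 : ε * (J * L) = J * (Real.log S / 2 * (L / (L + 1))) := by
      rw [hε]
      field_simp
    rw [h4]
    have h5 : (L : ℝ) / (L + 1) ≤ 1 := by
      rw [div_le_one (by positivity)]; linarith
    calc (J : ℝ) * (Real.log S / 2 * (L / (L + 1))) ≤ J * (Real.log S / 2 * 1) := by gcongr
      _ = _ := by ring
  have h2 : 1 < Real.exp (Real.log S / 2) := Real.one_lt_exp_iff.2 (by linarith)
  obtain ⟨J, hJ⟩ := pow_unbounded_of_one_lt C h2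
  have h3 := h1 J
  have h4 : S ^ J = Real.exp (Real.log S / 2) ^ J * Real.exp (Real.log S / 2) ^ J := by
    rw [← mul_pow, ← Real.exp_add, add_halves, Real.exp_log (by linarith)]
  rw [h4] at h3
  have h5 : (0 : ℝ) < Real.exp (Real.log S / 2) ^ J := by positivity
  have := le_of_mul_le_mul_right h3 h5
  linarith

end Pool.Agent.H284.EM
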