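import Pool.Agent.H284.EM.Basic

/-! Loops of the state graph and the return lemma. -/

set_option autoImplicit false

namespace Pool.Agent.H284.EM

variable {M : ℕ}

/-- transitivity in terms of words -/
def Tr (α : Sq M) : Prop := ∀ u w, La α u → La α w → ∃ v, La α (u ++ v ++ w)

/-- `e` leads from the state `u` back to `u` -/
def Loop (α : Sq M) (u e : Wd M) : Prop := e ≠ [] ∧ La α (u ++ e) ∧ st α (u ++ e) = u

theorem Loop.state {α : Sq M} {u e : Wd M} (h : Loop α u e) : st α u = u := by
  have := st_mem α (u ++ e)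
  rw [h.2.2] at this
  exact st_self this

theorem Loop.pq {α : Sq M} {u e : Wd M} (h : Loop α u e) : PQ α u := by
  have := st_mem α (u ++ e)
  rwa [h.2.2] at this

theorem Loop.append {α : Sq M} {u e f : Wd M} (h : Loop α u e) (h' : Loop α u f) :
    Loop α u (e ++ f) := by
  refine ⟨by simp [h.1], ?_, ?_⟩
  · rw [← List.append_assoc, la_append_iff h.2.1, h.2.2]
    exact h'.2.1
  · rw [← List.append_assoc, st_append, h.2.2, h'.2.2]

/-- powers of a word -/
def rep (n : ℕ) (e : Wd M) : Wd M := (List.replicate n e).flatten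

theorem rep_succ (n : ℕ) (e : Wd M) : rep (n + 1) e = e ++ rep n e := by
  simp [rep, List.replicate_succ]

@[simp] theorem rep_zero (e : Wd M) : rep 0 e = [] := rfl

theorem loop_rep {α : Sq M} {u e : Wd M} (h : Loop α u e) (n : ℕ) : Loop α u (rep (n + 1) e) := by
  induction n with
  | zero => simpa [rep_succ] using h
  | succ n ih => rw [rep_succ]; exact h.append ih

theorem length_rep (n : ℕ) (e : Wd M) : (rep n e).length = n * e.length := by
  simp [rep]

theorem suffix_of_len {t w z : Wd M} (h : t <:+ z) (h' : w <:+ z) (hl : t.length ≤ w.length) :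
    t <:+ w := List.suffix_of_suffix_length_le h h' hl

theorem st_eq_of_short {α : Sq M} {s w : Wd M}
    (h : ∀ t, t <:+ s ++ w → PQ α t → t.length ≤ w.length) : st α (s ++ w) = st α w := by
  apply lsuf_eq (pq_nil α)
  · exact (st_suffix α w).trans (List.suffix_append _ _)
  · exact st_mem α w
  · intro t ht hp
    exact suffix_st (suffix_of_len ht (List.suffix_append _ _) (h t ht hp)) hp

theorem exists_min_length (P : Wd M → Prop) (h : ∃ t, P t) :
    ∃ t, P t ∧ ∀ t', P t' → t.length ≤ t'.length := by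
  classical
  have h' : ∃ n, ∃ t, P t ∧ t.length = n := let ⟨t, ht⟩ := h; ⟨_, t, ht, rfl⟩
  obtain ⟨t, h1, h2⟩ := Nat.find_spec h'
  exact ⟨t, h1, fun t' ht' => h2 ▸ Nat.find_min' h' ⟨t', ht', rfl⟩⟩

/-- leaving a long run at a prefix `ρ` of `α` or its reflection -/
theorem leave {α : Sq M} {u y e ρ : Wd M} (hρ : La α ρ) (hy : Loop α u y) (he : Loop α u e)
    (hs : u ++ y <:+ ρ)
    (hmin : ∀ t, t <:+ ρ → PQ α t → (u ++ y).length < t.length → t = ρ)
    (hP : PP α ρ → ∀ x, Lt (ap ρ (ap e x)) α)
    (hQ : QQ α ρ → ∀ x, Lt (rf α) (ap ρ (ap e x))) :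
    La α (ρ ++ e) ∧ st α (ρ ++ e) = u := by
  obtain ⟨x, hx⟩ := he.2.1
  rw [ap_ap] at hx
  have key : ∀ t, t <:+ ρ → PQ α t → t.length ≤ (u ++ y).length → t <:+ u := by
    intro t ht hp hl
    have := suffix_st (suffix_of_len ht hs hl) hp
    rwa [hy.2.2] at this
  have key2 : ∀ t, t <:+ u → Le (rf α) (ap t (ap e x)) ∧ Le (ap t (ap e x)) α := by
    rintro t ⟨s, rfl⟩
    rw [ap_ap] at hx
    have := V_of_ap hx 0
    rwa [dr_zero] at this
  constructor
  · refine ⟨x, ?_⟩
    rw [ap_ap, ap_mem_iff hρ]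
    refine ⟨V_of_ap hx, fun t ht => ?_⟩
    rcases le_or_gt t.length (u ++ y).length with hl | hl
    · exact ⟨fun hp => (key2 t (key t ht (Or.inl hp) hl)).2,
        fun hq => (key2 t (key t ht (Or.inr hq) hl)).1⟩
    · constructor
      · intro hp
        have := hmin t ht (Or.inl hp) hl
        subst this
        exact (hP hp x).le
      · intro hq
        have := hmin t ht (Or.inr hq) hl
        subst this
        exact (hQ hq x).le
  · apply lsuf_eq (pq_nil α)
    · have h1 : st α (u ++ y ++ e) = u := by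
        rw [List.append_assoc]; exact (hy.append he).2.2
      have h2 := st_suffix α (u ++ y ++ e)
      rw [h1] at h2
      refine h2.trans ?_
      obtain ⟨s, hs⟩ := hs
      exact ⟨s, by rw [← List.append_assoc, hs]⟩
    · exact he.pq
    · intro t ht hp
      rcases suffix_append_cases ht with h | ⟨t', rfl, h⟩
      · have := suffix_st (h.trans (List.suffix_append u e)) hp
        rwa [he.2.2] at this
      · have hp' := pq_left _ _ hp
        rcases le_or_gt t'.length (u ++ y).length with hl | hl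
        · obtain ⟨s, hs⟩ := key t' h hp' hl
          have : t' ++ e <:+ u ++ e := ⟨s, by rw [← List.append_assoc, hs]⟩
          have := suffix_st this hp
          rwa [he.2.2] at this
        · exfalso
          have := hmin t' h hp' hl
          subst this
          rcases hp with hp | hp
          · obtain ⟨z, hz⟩ := hp
            have h3 := hP (Pre.left ⟨z, hz⟩) z
            rw [← ap_ap, ← hz] at h3
            exact Lt.irrefl _ h3
          · obtain ⟨z, hz⟩ := hp
            have h3 := hQ (Pre.left ⟨z, hz⟩) z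
            rw [← ap_ap, ← hz] at h3
            exact Lt.irrefl _ h3

theorem not_pp_qq {α : Sq M} (hnd : (α 0).rev ≠ α 0) {t : Wd M} (ht : 0 < t.length)
    (hp : PP α t) (hq : QQ α t) : False := by
  obtain ⟨x, hx⟩ := hp
  obtain ⟨y, hy⟩ := hq
  apply hnd
  have h1 := congrFun hx 0
  have h2 := congrFun hy 0
  rw [ap_lt ht] at h1 h2
  exact h2.trans h1.symm

theorem pp_tk {α : Sq M} {t : Wd M} (h : PP α t) : t = tk t.length α := (pre_iff.1 h).symm

theorem qq_tk {α : Sq M} {t : Wd M} (h : QQ α t) : t = tk t.length (rf α) := (pre_iff.1 h).symm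

theorem tk_split {k n : ℕ} (h : k ≤ n) (x : Sq M) : tk n x = tk k x ++ tk (n - k) (dr k x) := by
  rw [← tk_add]; congr 1; omega

/-- **Return lemma**: from every prefix of `α`, or from every reflected prefix, the state `u` can
be reached, if there are two different loops at `u`. -/
theorem return_lemma {α : Sq M} (hα : α ∈ V α) (hnd : (α 0).rev ≠ α 0) (htr : Tr α)
    {u e f : Wd M} (he : Loop α u e) (hf : Loop α u f) (hef : WLt e f) (k : ℕ) :
    (∃ v, La α (tk k α ++ v) ∧ st α (tk k α ++ v) = u) ∨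
    (∃ v, La α (tk k (rf α) ++ v) ∧ st α (tk k (rf α) ++ v) = u) := by
  set y := rep (k + 1) e with hy
  have hyl : Loop α u y := loop_rep he k
  have hlen : k < (u ++ y).length := by
    rw [List.length_append, hy, length_rep]
    have : 0 < e.length := List.length_pos_iff.2 he.1
    nlinarith
  have h1 : La α (u ++ y ++ (e ++ f)) := by
    rw [List.append_assoc]
    exact (hyl.append (he.append hf)).2.1
  obtain ⟨v0, hv0⟩ := htr (tk k α) (u ++ y ++ (e ++ f)) (la_tk hα k) h1
  set W := tk k α ++ v0 ++ (u ++ y) with hW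
  have hWl : La α (W ++ (e ++ f)) := by
    rw [hW]; simpa [List.append_assoc] using hv0
  have hsW : u ++ y <:+ W := List.suffix_append _ _
  by_cases hS : ∃ t, t <:+ W ∧ PQ α t ∧ (u ++ y).length < t.length
  · obtain ⟨ρ, ⟨h2, h3, h4⟩, h5⟩ := exists_min_length _ hS
    have hρ : La α ρ := (hWl.left).suffix h2
    have hsρ : u ++ y <:+ ρ := suffix_of_len hsW h2 h4.le
    have hmin : ∀ t, t <:+ ρ → PQ α t → (u ++ y).length < t.length → t = ρ := by
      intro t ht hp hl
      exact ht.eq_of_length_le (h5 t ⟨ht.trans h2, hp, hl⟩)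
    have hρ0 : 0 < ρ.length := by omega
    obtain ⟨z, hz⟩ := hWl
    have hz' : ap ρ (ap (e ++ f) z) ∈ V α := by
      obtain ⟨s, hs⟩ := h2
      rw [ap_ap, ← hs, ap_ap] at hz
      exact V_of_ap hz
    have hz2 := hz' 0
    rw [dr_zero] at hz2
    rcases h3 with hp | hq
    · left
      have hle := leave (e := e ++ e) hρ hyl (he.append he) hsρ hmin
        (fun _ x => by
          refine Lt.trans_le ?_ hz2.2
          exact (ap_lt_ap ρ).2 ((hef.append_left e).lt x z))
        (fun hq => absurd (not_pp_qq hnd hρ0 hp hq) id)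
      refine ⟨tk (ρ.length - k) (dr k α) ++ (e ++ e), ?_⟩
      have hk : tk k α ++ (tk (ρ.length - k) (dr k α) ++ (e ++ e)) = ρ ++ (e ++ e) := by
        rw [← List.append_assoc (tk k α), ← tk_split (by omega), ← pp_tk hp]
      rw [hk]
      exact hle
    · right
      have hle := leave (e := f) hρ hyl hf hsρ hmin
        (fun hp => absurd (not_pp_qq hnd hρ0 hp hq) id)
        (fun _ x => by
          refine Le.trans_lt hz2.1 ?_
          have := hef.append f []
          rw [List.append_nil] at this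
          exact (ap_lt_ap ρ).2 (this.lt z x))
      refine ⟨tk (ρ.length - k) (dr k (rf α)) ++ f, ?_⟩
      have hk : tk k (rf α) ++ (tk (ρ.length - k) (dr k (rf α)) ++ f) = ρ ++ f := by
        rw [← List.append_assoc (tk k (rf α)), ← tk_split (by omega), ← qq_tk hq]
      rw [hk]
      exact hle
  · left
    push Not at hS
    refine ⟨v0 ++ (u ++ y), ?_, ?_⟩
    · rw [← List.append_assoc]; exact hWl.left
    · rw [← List.append_assoc, st_eq_of_short, hyl.2.2]
      intro t ht hp
      exact hS t ht hp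

/-- from every state one reaches `u` or its reflection -/
theorem reach {α : Sq M} (hα : α ∈ V α) (hnd : (α 0).rev ≠ α 0) (htr : Tr α)
    {u e f : Wd M} (he : Loop α u e) (hf : Loop α u f) (hef : WLt e f) {t : Wd M}
    (ht : PQ α t) :
    ∃ v, La α (t ++ v) ∧ (st α (t ++ v) = u ∨ st α (t ++ v) = rw' u) := by
  have hR := return_lemma hα hnd htr he hf hef t.length
  rcases ht with hp | hq
  · rcases hR with ⟨v, h1, h2⟩ | ⟨v, h1, h2⟩
    · rw [← pp_tk hp] at h1 h2
      exact ⟨v, h1, Or.inl h2⟩
    · have h3 : rw' (tk t.length (rf α) ++ v) = t ++ rw' v := by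
        rw [rw'_append, rw'_tk, rf_rf, ← pp_tk hp]
      refine ⟨rw' v, ?_, Or.inr ?_⟩
      · rw [← h3]; exact h1.rw
      · rw [← h3, st_rw, h2]
  · rcases hR with ⟨v, h1, h2⟩ | ⟨v, h1, h2⟩
    · have h3 : rw' (tk t.length α ++ v) = t ++ rw' v := by
        rw [rw'_append, rw'_tk, ← qq_tk hq]
      refine ⟨rw' v, ?_, Or.inr ?_⟩
      · rw [← h3]; exact h1.rw
      · rw [← h3, st_rw, h2]
    · rw [← qq_tk hq] at h1 h2
      exact ⟨v, h1, Or.inl h2⟩

/-- **Loops through every word.** -/
theorem loop_through {α : Sq M} (hα : α ∈ V α) (hnd : (α 0).rev ≠ α 0) (htr : Tr α)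
    {u e f : Wd M} (he : Loop α u e) (hf : Loop α u f) (hef : WLt e f) {w : Wd M}
    (hw : La α w) : ∃ g, Loop α u g ∧ w <:+: g := by
  obtain ⟨v1, hv1⟩ := htr (u ++ e) w he.2.1 hw
  have hv1' : La α (u ++ (e ++ v1 ++ w)) := by simpa [List.append_assoc] using hv1
  obtain ⟨v, h1, h2⟩ := reach hα hnd htr he hf hef (st_mem α (u ++ (e ++ v1 ++ w)))
  set g := e ++ v1 ++ w ++ v with hg
  have hgl : La α (u ++ g) := by
    rw [hg, ← List.append_assoc]
    exact (la_append_iff hv1').2 h1
  have hgs : st α (u ++ g) = st α (st α (u ++ (e ++ v1 ++ w)) ++ v) := by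
    rw [hg, ← List.append_assoc, st_append]
  have hne : g ≠ [] := by simp [hg, he.1]
  have hwg : w <:+: g := ⟨e ++ v1, v, by simp [hg]⟩
  rcases h2 with h2 | h2
  · exact ⟨g, ⟨hne, hgl, hgs.trans h2⟩, hwg⟩
  · rw [h2] at hgs
    refine ⟨g ++ rw' g, ⟨by simp [hne], ?_, ?_⟩, hwg.trans (List.infix_append' [] g (rw' g) |> fun h => by simpa using h)⟩
    · rw [← List.append_assoc, la_append_iff hgl, hgs, ← rw'_append]
      exact hgl.rw
    · rw [← List.append_assoc, st_append, hgs, ← rw'_append, st_rw, hgs, rw'_rw']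

end Pool.Agent.H284.EM
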