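import Pool.Agent.H284.EM.Ent

/-! Entropy minimality. -/

set_option autoImplicit false

open Finset Filter Topology

namespace Pool.Agent.H284.EM

variable {M : ℕ}

/-! Fekete -/

theorem num_add (L : Wd M → Prop) (hl : ∀ u v, L (u ++ v) → L u) (hr : ∀ u v, L (u ++ v) → L v)
    (m n : ℕ) : num L (m + n) ≤ num L m * num L n := by
  classical
  have h1 : ((wds M (m + n)).filter L) ⊆ cat ((wds M m).filter L) ((wds M n).filter L) := by
    intro w hw
    rw [mem_filter, mem_wds] at hw
    rw [mem_cat]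
    have h2 : w.take m ++ w.drop m = w := List.take_append_drop m w
    refine ⟨w.take m, ?_, w.drop m, ?_, h2⟩
    · rw [mem_filter, mem_wds]
      refine ⟨by simp [hw.1], hl _ (w.drop m) (by rw [h2]; exact hw.2)⟩
    · rw [mem_filter, mem_wds]
      refine ⟨by simp [hw.1], hr (w.take m) _ (by rw [h2]; exact hw.2)⟩
  unfold num
  calc _ ≤ (cat ((wds M m).filter L) ((wds M n).filter L)).card := by
        refine le_trans (le_of_eq ?_) (card_le_card h1)
        congr
    _ ≤ (((wds M m).filter L) ×ˢ ((wds M n).filter L)).card := card_image_le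
    _ = _ := by
        rw [card_product]

theorem fekete (L : Wd M → Prop) (hl : ∀ u v, L (u ++ v) → L u) (hr : ∀ u v, L (u ++ v) → L v)
    (hN : ∀ n, 0 < num L n) :
    ∃ h : ℝ, Tendsto (fun n : ℕ => Real.log (num L n) / n) atTop (𝓝 h) := by
  have hsub : Subadditive (fun n => Real.log (num L n)) := by
    intro m n
    have h1 := num_add L hl hr m n
    have hm : (0 : ℝ) < num L m := by exact_mod_cast hN m
    have hn : (0 : ℝ) < num L n := by exact_mod_cast hN n
    have hmn : (0 : ℝ) < num L (m + n) := by exact_mod_cast hN (m + n)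
    rw [← Real.log_mul hm.ne' hn.ne']
    apply Real.log_le_log hmn
    exact_mod_cast h1
  refine ⟨_, hsub.tendsto_lim ?_⟩
  refine ⟨0, ?_⟩
  rintro _ ⟨n, rfl⟩
  apply div_nonneg
  · apply Real.log_nonneg
    exact_mod_cast hN n
  · exact Nat.cast_nonneg n

theorem num_pos_of {L : Wd M → Prop} (h : ∀ n, ∃ w, w.length = n ∧ L w) (n : ℕ) :
    0 < num L n := by
  classical
  obtain ⟨w, h1, h2⟩ := h n
  unfold num
  rw [card_pos]
  exact ⟨w, mem_filter.2 ⟨mem_wds.2 h1, h2⟩⟩

/-- two loops give positive entropy -/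
theorem h_pos {α : Sq M} {h : ℝ} (hN : ∀ n, 0 < num (La α) n)
    (hlim : Tendsto (fun n : ℕ => Real.log (num (La α) n) / n) atTop (𝓝 h)) (hT : Two α) :
    0 < h := by
  obtain ⟨u, e, f, he, hf, hef⟩ := hT
  have hne : e ++ f ≠ f ++ e := by
    intro hc
    obtain ⟨n, h1, h2, h3, h4⟩ := hef
    have h5 : (e ++ f)[n]'(by simp; omega) = (f ++ e)[n]'(by simp; omega) := by simp only [hc]
    rw [List.getElem_append_left h1, List.getElem_append_left h2] at h5
    exact h4.ne h5
  have hlen : (e ++ f).length = (f ++ e).length := by simp [Nat.add_comm]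
  have hk := kraft hN hlim (u := u) (D := {e ++ f, f ++ e})
    (fun d hd => by
      rw [mem_insert, mem_singleton] at hd
      rcases hd with rfl | rfl
      · exact he.append hf
      · exact hf.append he)
    (fun d hd d' hd' hp => by
      apply hp.eq_of_length
      rw [mem_insert, mem_singleton] at hd hd'
      rcases hd with rfl | rfl <;> rcases hd' with rfl | rfl <;> simp [Nat.add_comm])
    he.2.1.left
  unfold wt at hk
  rw [sum_pair hne, ← hlen] at hk
  by_contra hc
  push Not at hc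
  have h1 : (1 : ℝ) ≤ Real.exp (-h) := Real.one_le_exp (by linarith)
  have h2 : (1 : ℝ) ≤ Real.exp (-h) ^ (e ++ f).length := one_le_pow₀ h1
  linarith

/-! closedness and the lexicographic maximum -/

theorem closed_of {S : Set (Sq M)} (h : ∀ x, (∀ n, ∃ z ∈ S, ∀ i < n, z i = x i) → x ∈ S) :
    IsClosed S := by
  apply isClosed_of_closure_subset
  intro x hx
  apply h
  intro n
  rw [mem_closure_iff] at hx
  have ho : IsOpen (⋂ i ∈ Finset.range n, (fun z : Sq M => z i) ⁻¹' {x i}) :=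
    isOpen_biInter_finset fun i _ => (isOpen_discrete _).preimage (continuous_apply i)
  obtain ⟨z, h1, h2⟩ := hx _ ho (by simp)
  refine ⟨z, h2, fun i hi => ?_⟩
  rw [Set.mem_iInter₂] at h1
  exact h1 i (mem_range.2 hi)

theorem lt_local {x y z t : Sq M} {n : ℕ} (h1 : ∀ i < n, x i = y i) (h2 : x n < y n)
    (hz : ∀ i ≤ n, z i = x i) (ht : ∀ i ≤ n, t i = y i) : Lt z t :=
  ⟨n, fun i hi => by rw [hz i hi.le, ht i hi.le, h1 i hi], by
    rw [hz n le_rfl, ht n le_rfl]; exact h2⟩

theorem V_closed (α : Sq M) : IsClosed (V α) := by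
  apply closed_of
  intro x hx n
  constructor
  · by_contra hc
    obtain ⟨m, h1, h2⟩ := not_le.1 hc
    obtain ⟨z, hz, hzx⟩ := hx (n + m + 1)
    refine not_le.2 (lt_local (z := dr n z) (t := rf α) h1 h2 ?_ (fun i _ => rfl)) (hz n).1
    intro i hi
    exact hzx (n + i) (by omega)
  · by_contra hc
    obtain ⟨m, h1, h2⟩ := not_le.1 hc
    obtain ⟨z, hz, hzx⟩ := hx (n + m + 1)
    refine not_le.2 (lt_local (z := α) (t := dr n z) h1 h2 (fun i _ => rfl) ?_) (hz n).2
    intro i hi
    exact hzx (n + i) (by omega)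

/-- successive maximisation of the symbols -/
def CC (Y : Set (Sq M)) : ℕ → Set (Sq M)
  | 0 => Y
  | n + 1 => {x | x ∈ CC Y n ∧ ∀ y ∈ CC Y n, y n ≤ x n}

theorem CC_nonempty {Y : Set (Sq M)} (hne : Y.Nonempty) (n : ℕ) : (CC Y n).Nonempty := by
  induction n with
  | zero => exact hne
  | succ n ih =>
    obtain ⟨c, hc, hmax⟩ := Set.exists_max_image ((fun x : Sq M => x n) '' CC Y n) id
      (Set.toFinite _) (ih.image _)
    obtain ⟨x, hx, rfl⟩ := hc
    exact ⟨x, hx, fun y hy => hmax _ ⟨y, hy, rfl⟩⟩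

theorem CC_closed {Y : Set (Sq M)} (hcl : IsClosed Y) (n : ℕ) : IsClosed (CC Y n) := by
  induction n with
  | zero => exact hcl
  | succ n ih =>
    have : CC Y (n + 1) = CC Y n ∩ (fun x : Sq M => x n) ⁻¹' {c | ∀ y ∈ CC Y n, y n ≤ c} := rfl
    rw [this]
    exact ih.inter ((isClosed_discrete _).preimage (continuous_apply n))

theorem exists_lexmax {Y : Set (Sq M)} (hcl : IsClosed Y) (hne : Y.Nonempty) :
    ∃ a ∈ Y, ∀ y ∈ Y, Le y a := by
  obtain ⟨a, ha⟩ := IsCompact.nonempty_iInter_of_sequence_nonempty_isCompact_isClosed (CC Y)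
    (fun n x hx => hx.1) (CC_nonempty hne) (CC_closed hcl 0).isCompact (CC_closed hcl)
  rw [Set.mem_iInter] at ha
  refine ⟨a, ha 0, fun y hy => ?_⟩
  by_contra hc
  obtain ⟨n, h1, h2⟩ := not_le.1 hc
  have h3 : ∀ i ≤ n, y ∈ CC Y i := by
    intro i
    induction i with
    | zero => intro _; exact hy
    | succ i ih =>
      intro hi
      refine ⟨ih (by omega), fun x hx => ?_⟩
      rw [← h1 i (by omega)]
      exact (ha (i + 1)).2 x hx
  exact absurd ((ha (n + 1)).2 y (h3 n le_rfl)) (not_le_of_gt h2)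

theorem V_eq {α : Sq M} (hne : (V α).Nonempty) : ∃ β : Sq M, β ∈ V β ∧ V α = V β := by
  obtain ⟨β, hβ, hmax⟩ := exists_lexmax (V_closed α) hne
  have h1 : V α = V β := by
    ext x
    constructor
    · intro hx n
      refine ⟨?_, hmax _ (V_dr hx n)⟩
      have := hmax _ (V_rf (V_dr hx n))
      have h2 := rf_le.2 this
      rwa [rf_rf] at h2
    · intro hx n
      have hb := hβ 0
      rw [dr_zero] at hb
      exact ⟨(rf_le.2 hb.2).trans (hx n).1, (hx n).2.trans hb.2⟩
  exact ⟨β, h1 ▸ hβ, h1⟩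

/-- words occurring in points of `Y` -/
def Occ (Y : Set (Sq M)) (w : Wd M) : Prop :=
  ∃ x ∈ Y, ∃ k, ∀ (i : ℕ) (h : i < w.length), x (k + i) = w[i]

theorem occ_iff {Y : Set (Sq M)} (hinv : ∀ x ∈ Y, dr 1 x ∈ Y) {w : Wd M} :
    Occ Y w ↔ LX Y w := by
  constructor
  · rintro ⟨x, hx, k, h⟩
    refine ⟨dr w.length (dr k x), ?_⟩
    have h1 := ap_tk_dr w.length (dr k x)
    have h2 : tk w.length (dr k x) = w := by
      apply List.ext_getElem (by simp)
      intro i h3 h4
      simp only [getElem_tk, dr]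
      exact h i h4
    rw [h2] at h1
    rw [h1]
    exact dr_mem hinv hx k
  · rintro ⟨x, hx⟩
    refine ⟨ap w x, hx, 0, fun i h => ?_⟩
    rw [Nat.zero_add, ap_lt h]

theorem ncard_eq {L L' : Wd M → Prop} (h : ∀ w, L w ↔ L' w) (n : ℕ) :
    {w : Wd M | w.length = n ∧ L w}.ncard = num L' n := by
  classical
  have : {w : Wd M | w.length = n ∧ L w} = ((wds M n).filter L' : Finset (Wd M)) := by
    ext w
    simp only [Set.mem_ofPred_eq, coe_filter, mem_wds, h]
  rw [this, Set.ncard_coe_finset]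
  unfold num
  congr

theorem V_inv (α : Sq M) : ∀ x ∈ V α, dr 1 x ∈ V α := fun _ hx => V_dr hx 1

theorem lx_pos {X : Set (Sq M)} (hne : X.Nonempty) (n : ℕ) : 0 < num (LX X) n := by
  apply num_pos_of
  intro n
  obtain ⟨x, hx⟩ := hne
  exact ⟨tk n x, by simp, dr n x, by rwa [ap_tk_dr]⟩

/-- **Entropy minimality.** -/
theorem entropy_minimal {α : Sq M} (hα : α ∈ V α) (htr : Tr α) {X : Set (Sq M)}
    (hcl : IsClosed X) (hne : X.Nonempty) (hinv : ∀ x ∈ X, dr 1 x ∈ X) (hsub : X ⊆ V α)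
    (hX : X ≠ V α) : ∃ hx hy : ℝ,
      Tendsto (fun n : ℕ => Real.log (num (LX X) n) / n) atTop (𝓝 hx) ∧
      Tendsto (fun n : ℕ => Real.log (num (La α) n) / n) atTop (𝓝 hy) ∧ hx < hy := by
  obtain ⟨hx, hhx⟩ := fekete (LX X) (fun _ _ h => h.left) (fun _ _ h => h.right hinv)
    (lx_pos hne)
  have hN : ∀ n, 0 < num (La α) n := fun n => num_pos_of (fun n => ⟨tk n α, by simp, la_tk hα n⟩) n
  obtain ⟨hy, hhy⟩ := fekete (La α) (fun _ _ h => h.left) (fun _ _ h => h.right) hN
  refine ⟨hx, hy, hhx, hhy, ?_⟩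
  -- the degenerate case
  have hnd : (α 0).rev ≠ α 0 := by
    intro hc
    apply hX
    apply Set.Subset.antisymm hsub
    have hconst : ∀ x ∈ V α, x = fun _ => α 0 := by
      intro x hx
      funext n
      have h1 := hx n
      have h2 := le_head h1.1
      have h3 := le_head h1.2
      simp only [rf, dr, Nat.add_zero] at h2 h3
      rw [hc] at h2
      exact le_antisymm h3 h2
    obtain ⟨x, hx⟩ := hne
    intro y hy
    rw [hconst y hy, ← hconst x (hsub hx)]
    exact hx
  have hT : Two α := by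
    by_contra hT
    exact hX (total_of_not_two hα hnd htr hT hcl hne hinv hsub)
  have hy0 := h_pos hN hhy hT
  -- a word missing in `X`
  obtain ⟨w0, hw0, hw0'⟩ : ∃ w0, La α w0 ∧ ¬ LX X w0 := by
    by_contra hc
    push Not at hc
    apply hX
    apply Set.Subset.antisymm hsub
    intro y hy
    apply mem_of_closed hcl
    intro n
    obtain ⟨x, hx⟩ := hc _ (la_tk hy n)
    refine ⟨_, hx, fun i hi => ?_⟩
    rw [ap_lt (by simpa using hi)]
    simp
  obtain ⟨ρ, hρ, C, hC, hb⟩ := main_estimate hα hnd htr hy0 hN hhy hinv hsub hw0 hw0'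
  refine lt_of_le_of_lt ?_ hρ
  have h1 : Tendsto (fun n : ℕ => Real.log C / n + ρ) atTop (𝓝 (0 + ρ)) :=
    (tendsto_const_div_atTop_nhds_zero_nat (Real.log C)).add_const ρ
  rw [zero_add] at h1
  refine le_of_tendsto_of_tendsto hhx h1 ?_
  filter_upwards [eventually_gt_atTop 0] with n hn
  have hn' : (0 : ℝ) < n := by exact_mod_cast hn
  have h2 : (0 : ℝ) < num (LX X) n := by exact_mod_cast lx_pos hne n
  have h3 := Real.log_le_log h2 (hb n)
  rw [Real.log_mul hC.ne' (Real.exp_pos _).ne', Real.log_exp] at h3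
  rw [div_le_iff₀ hn']
  have h4 : (Real.log C / n + ρ) * n = Real.log C + ρ * n := by field_simp
  rw [h4]
  exact h3

end Pool.Agent.H284.EM
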